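import Pool.Agent.H43.ZS.Defs

/-!
# [H43 ZS SHIFT] Shifting and Taylor expansion

`g(m) = exp(-i t log(m+β))`, `1 <= A`, `2 A^2 <= N`, `N' <= 2N`, `t, β >= 0`, `k >= 1`:
`‖Σ_{N<m<=N'} g(m)‖ <= A^(-2) Σ_{N<m<=N'} ‖W k A (al k t β m)‖ + 2A^2 + N t (A^2/N)^(k+1)`.

PROOF. If `N' <= N` the left side is `0`. For `1 <= x, y <= A`, `h = xy <= A^2`: the sums
`Σ_{N<m<=N'} g(m)` and `Σ_{N<m<=N'} g(m+h)` differ by at most `2h` terms of absolute value 1 (the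
second is the sum over `(N+h, N'+h]`). Averaging over `x, y`:
`‖Σ g(m)‖ <= A^(-2) ‖Σ_m Σ_{x,y} g(m+xy)‖ + 2A^2`.
For `m > N`, `z = xy/(m+β) <= A^2/N <= 1/2`: `log(m+β+xy) = log(m+β) + log(1+z)`, and
`|log(1+z) - Σ_{j=1}^{k} (-1)^(j-1) z^j/j| <= z^(k+1)/((k+1)(1-z)) <= z^(k+1) <= (A^2/N)^(k+1)`
(`Real.abs_log_sub_add_sum_range_le` at `-z`: `|Σ_{i<n} x^(i+1)/(i+1) + log(1-x)| <= |x|^(n+1)/(1-|x|)` gives
`2 z^(k+1)`; if you only get the factor `2`, use instead the alternating series or the integral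
`∫_0^z u^k/(1+u) du <= z^(k+1)/(k+1)`: `log(1+z) - Σ_{j<=k} = ± ∫_0^z u^k/(1+u) du`, an easy induction or
derivative argument; this gives the factor `1/(k+1) <= 1/2`). As `|e^{ia} - e^{ib}| <= |a-b|`,
`‖g(m+xy) - g(m) ez(Σ_j al_j (xy)^j)‖ <= t (A^2/N)^(k+1)`: indeed
`-t Σ_j (-1)^(j-1) z^j/j = 2π Σ_j al_j (xy)^j` with `al_j = (-1)^j t/(2π j (m+β)^j)` (`j = (index)+1`).
Sum over `x, y` and over the at most `N` values of `m`; `‖g(m)‖ = 1`.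
-/

namespace Pool.Agent.H43.ZS

open Finset

theorem shift_log (k : ℕ) (z : ℝ) (hz : 0 ≤ z) :
    |Real.log (1 + z) - ∑ j ∈ range k, (-1) ^ j * z ^ (j + 1) / ((j : ℝ) + 1)| ≤ z ^ (k + 1) := by
  have hd : ∀ u ∈ Set.Icc (0 : ℝ) z, HasDerivWithinAt
      (fun u : ℝ => Real.log (1 + u) - ∑ j ∈ range k, (-1) ^ j * u ^ (j + 1) / ((j : ℝ) + 1))
      (1 / (1 + u) - ∑ j ∈ range k, (-1) ^ j * u ^ j) (Set.Icc 0 z) u := by
    intro u hu
    have h1 : (1 : ℝ) + u ≠ 0 := by linarith [hu.1]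
    have h2 : HasDerivAt (fun u : ℝ => Real.log (1 + u)) (1 / (1 + u)) u :=
      ((hasDerivAt_id u).const_add 1).log h1
    have h3 : HasDerivAt (fun u : ℝ => ∑ j ∈ range k, (-1) ^ j * u ^ (j + 1) / ((j : ℝ) + 1))
        (∑ j ∈ range k, (-1) ^ j * u ^ j) u := by
      refine HasDerivAt.fun_sum (fun j _ => ?_)
      have h4 := ((hasDerivAt_pow (j + 1) u).const_mul ((-1 : ℝ) ^ j)).div_const ((j : ℝ) + 1)
      have h5 : (-1 : ℝ) ^ j * (((j + 1 : ℕ) : ℝ) * u ^ (j + 1 - 1)) / ((j : ℝ) + 1) =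
          (-1) ^ j * u ^ j := by
        have h6 : ((j : ℝ) + 1) ≠ 0 := by positivity
        rw [Nat.add_sub_cancel]
        push_cast
        field_simp
      rw [h5] at h4
      exact h4
    exact (h2.sub h3).hasDerivWithinAt
  have hb : ∀ u ∈ Set.Icc (0 : ℝ) z,
      ‖1 / (1 + u) - ∑ j ∈ range k, (-1) ^ j * u ^ j‖ ≤ z ^ k := by
    intro u hu
    have h1 : (1 : ℝ) + u ≠ 0 := by linarith [hu.1]
    have h2 : ∑ j ∈ range k, (-1) ^ j * u ^ j = ∑ j ∈ range k, (-u) ^ j := by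
      refine Finset.sum_congr rfl (fun j _ => ?_)
      rw [← mul_pow]
      congr 1
      ring
    have h3 : (-u) ≠ 1 := by linarith [hu.1]
    rw [h2, geom_sum_eq h3]
    have h4 : (-u) - 1 ≠ 0 := by linarith [hu.1]
    have h5 : 1 / (1 + u) - ((-u) ^ k - 1) / (-u - 1) = (-u) ^ k / (1 + u) := by
      rw [div_sub_div _ _ h1 h4, div_eq_div_iff (mul_ne_zero h1 h4) h1]
      ring
    rw [h5, norm_div, norm_pow, norm_neg, Real.norm_eq_abs, Real.norm_eq_abs,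
      abs_of_nonneg hu.1, abs_of_pos (by linarith [hu.1] : (0 : ℝ) < 1 + u)]
    have h6 : u ^ k / (1 + u) ≤ u ^ k := by
      apply div_le_self (pow_nonneg hu.1 k)
      linarith [hu.1]
    exact h6.trans (pow_le_pow_left₀ hu.1 hu.2 k)
  have h := (convex_Icc (0 : ℝ) z).norm_image_sub_le_of_norm_hasDerivWithin_le hd hb
    (Set.left_mem_Icc.2 hz) (Set.right_mem_Icc.2 hz)
  have h0 : Real.log (1 + 0) - ∑ j ∈ range k, (-1) ^ j * (0 : ℝ) ^ (j + 1) / ((j : ℝ) + 1) = 0 := by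
    simp
  simp only [h0, sub_zero] at h
  rw [Real.norm_eq_abs, Real.norm_eq_abs, abs_of_nonneg hz, ← pow_succ] at h
  exact h

theorem shift_exp (a b : ℝ) :
    ‖Complex.exp ((a : ℂ) * Complex.I) - Complex.exp ((b : ℂ) * Complex.I)‖ ≤ |a - b| := by
  have h1 : Complex.exp ((a : ℂ) * Complex.I) - Complex.exp ((b : ℂ) * Complex.I) =
      Complex.exp ((b : ℂ) * Complex.I) * (Complex.exp (Complex.I * ((a - b : ℝ) : ℂ)) - 1) := by
    rw [mul_sub, ← Complex.exp_add, mul_one]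
    congr 2
    push_cast
    ring
  rw [h1, norm_mul, Complex.norm_exp_ofReal_mul_I, one_mul]
  exact Real.norm_exp_I_mul_ofReal_sub_one_le

theorem shift_norm (t β : ℝ) (m : ℕ) :
    ‖Complex.exp (-(t * Real.log ((m : ℝ) + β) : ℝ) * Complex.I)‖ = 1 := by
  have h : (-((t * Real.log ((m : ℝ) + β) : ℝ) : ℂ)) * Complex.I =
      ((-(t * Real.log ((m : ℝ) + β)) : ℝ) : ℂ) * Complex.I := by push_cast; ring
  rw [h, Complex.norm_exp_ofReal_mul_I]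

theorem shift_sum (g : ℕ → ℂ) (hg : ∀ m, ‖g m‖ = 1) (N N' h : ℕ) (hN : N ≤ N') :
    ‖∑ m ∈ Ioc N N', g m - ∑ m ∈ Ioc N N', g (m + h)‖ ≤ 2 * h := by
  have h1 : ∑ m ∈ Ioc N N', g (m + h) = ∑ m ∈ Ioc (N + h) (N' + h), g m := by
    rw [← Finset.image_add_right_Ioc, Finset.sum_image]
    intro a _ b _ hab
    exact Nat.add_right_cancel hab
  have h2 := Finset.sum_Ioc_consecutive g hN (Nat.le_add_right N' h)
  have h3 := Finset.sum_Ioc_consecutive g (Nat.le_add_right N h)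
    (Nat.add_le_add_right hN h)
  have h4 : ∑ m ∈ Ioc N N', g m - ∑ m ∈ Ioc (N + h) (N' + h), g m =
      ∑ m ∈ Ioc N (N + h), g m - ∑ m ∈ Ioc N' (N' + h), g m := by
    have h5 := h2.trans h3.symm
    linear_combination h5
  have h5 : ∀ M : ℕ, ‖∑ m ∈ Ioc M (M + h), g m‖ ≤ h := by
    intro M
    refine (norm_sum_le _ _).trans ?_
    rw [Finset.sum_congr rfl (fun m _ => hg m), Finset.sum_const, Nat.card_Ioc, nsmul_eq_mul,
      mul_one]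
    simp
  rw [h1, h4]
  refine (norm_sub_le _ _).trans ?_
  linarith [h5 N, h5 N']

theorem shift_term (t β : ℝ) (ht : 0 ≤ t) (hβ : 0 ≤ β) (N A k m x y : ℕ)
    (hN0 : 0 < N) (hm : N < m) (hx : x ≤ A) (hy : y ≤ A) :
    ‖Complex.exp (-(t * Real.log (((m + x * y : ℕ) : ℝ) + β) : ℝ) * Complex.I) -
      Complex.exp (-(t * Real.log ((m : ℝ) + β) : ℝ) * Complex.I) *
      ez (∑ j : Fin k, al k t β m j * ((x : ℝ) ^ ((j : ℕ) + 1) * (y : ℝ) ^ ((j : ℕ) + 1)))‖ ≤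
      t * ((A : ℝ) ^ 2 / N) ^ (k + 1) := by
  have hN : (0 : ℝ) < N := by exact_mod_cast hN0
  have hmN : (N : ℝ) ≤ m := by exact_mod_cast hm.le
  have hmb : (0 : ℝ) < (m : ℝ) + β := by linarith
  set z : ℝ := (x : ℝ) * y / ((m : ℝ) + β) with hz
  have hz0 : 0 ≤ z := by positivity
  have hxy : (x : ℝ) * y ≤ (A : ℝ) ^ 2 := by
    have h1 : (x : ℝ) ≤ A := by exact_mod_cast hx
    have h2 : (y : ℝ) ≤ A := by exact_mod_cast hy
    rw [sq]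
    exact mul_le_mul h1 h2 (Nat.cast_nonneg _) (Nat.cast_nonneg _)
  have hzN : z ≤ (A : ℝ) ^ 2 / N := by
    rw [hz, div_le_div_iff₀ hmb hN]
    have h1 : (0 : ℝ) ≤ (A : ℝ) ^ 2 := by positivity
    calc (x : ℝ) * y * N ≤ (A : ℝ) ^ 2 * N := mul_le_mul_of_nonneg_right hxy hN.le
      _ ≤ (A : ℝ) ^ 2 * ((m : ℝ) + β) := mul_le_mul_of_nonneg_left (by linarith) h1
  have hlog : Real.log (((m + x * y : ℕ) : ℝ) + β) = Real.log ((m : ℝ) + β) +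
      Real.log (1 + z) := by
    rw [← Real.log_mul hmb.ne' (by linarith)]
    congr 1
    rw [hz]
    push_cast
    field_simp
    ring
  have hsum : 2 * Real.pi * (∑ j : Fin k, al k t β m j *
      ((x : ℝ) ^ ((j : ℕ) + 1) * (y : ℝ) ^ ((j : ℕ) + 1))) =
      -(t * ∑ j ∈ range k, (-1) ^ j * z ^ (j + 1) / ((j : ℝ) + 1)) := by
    rw [← Fin.sum_univ_eq_sum_range (fun j => (-1 : ℝ) ^ j * z ^ (j + 1) / ((j : ℝ) + 1)) k,
      Finset.mul_sum, Finset.mul_sum, ← Finset.sum_neg_distrib]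
    refine Finset.sum_congr rfl (fun j _ => ?_)
    have hpi : Real.pi ≠ 0 := Real.pi_ne_zero
    have hj : ((j : ℕ) : ℝ) + 1 ≠ 0 := by positivity
    unfold al
    rw [hz, div_pow, mul_pow]
    have hmb' : ((m : ℝ) + β) ^ ((j : ℕ) + 1) ≠ 0 := pow_ne_zero _ hmb.ne'
    field_simp
    ring
  have e1 : Complex.exp (-(t * Real.log (((m + x * y : ℕ) : ℝ) + β) : ℝ) * Complex.I) =
      Complex.exp (((-(t * Real.log ((m : ℝ) + β)) - t * Real.log (1 + z) : ℝ) : ℂ) *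
        Complex.I) := by
    rw [hlog]
    congr 1
    push_cast
    ring
  have e2 : Complex.exp (-(t * Real.log ((m : ℝ) + β) : ℝ) * Complex.I) *
      ez (∑ j : Fin k, al k t β m j * ((x : ℝ) ^ ((j : ℕ) + 1) * (y : ℝ) ^ ((j : ℕ) + 1))) =
      Complex.exp (((-(t * Real.log ((m : ℝ) + β)) -
        t * ∑ j ∈ range k, (-1) ^ j * z ^ (j + 1) / ((j : ℝ) + 1) : ℝ) : ℂ) * Complex.I) := by
    unfold ez
    rw [← Complex.exp_add]
    congr 1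
    have h1 : (((2 * Real.pi * (∑ j : Fin k, al k t β m j *
      ((x : ℝ) ^ ((j : ℕ) + 1) * (y : ℝ) ^ ((j : ℕ) + 1))) : ℝ)) : ℂ) =
      ((-(t * ∑ j ∈ range k, (-1) ^ j * z ^ (j + 1) / ((j : ℝ) + 1)) : ℝ) : ℂ) := by
      rw [hsum]
    rw [Complex.ofReal_mul, Complex.ofReal_mul, Complex.ofReal_ofNat] at h1
    rw [h1]
    rw [Complex.ofReal_sub, Complex.ofReal_neg, Complex.ofReal_neg]
    ring
  rw [e1, e2]
  refine (shift_exp _ _).trans ?_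
  have h1 : -(t * Real.log ((m : ℝ) + β)) - t * Real.log (1 + z) -
      (-(t * Real.log ((m : ℝ) + β)) -
        t * ∑ j ∈ range k, (-1) ^ j * z ^ (j + 1) / ((j : ℝ) + 1)) =
      -(t * (Real.log (1 + z) - ∑ j ∈ range k, (-1) ^ j * z ^ (j + 1) / ((j : ℝ) + 1))) := by
    ring
  rw [h1, abs_neg, abs_mul, abs_of_nonneg ht]
  refine mul_le_mul_of_nonneg_left ((shift_log k z hz0).trans ?_) ht
  exact pow_le_pow_left₀ hz0 hzN _

theorem shift (t β : ℝ) (ht : 0 ≤ t) (hβ : 0 ≤ β) (N N' A k : ℕ) (hk : 1 ≤ k) (hA : 1 ≤ A)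
    (h2A : 2 * A ^ 2 ≤ N) (hN : N' ≤ 2 * N) :
    ‖∑ m ∈ Ioc N N', Complex.exp (-(t * Real.log ((m : ℝ) + β) : ℝ) * Complex.I)‖ ≤
      (1 / (A : ℝ) ^ 2) * ∑ m ∈ Ioc N N', ‖W k A (al k t β m)‖ + 2 * (A : ℝ) ^ 2 +
        N * t * ((A : ℝ) ^ 2 / N) ^ (k + 1) := by
  have hA0 : (0 : ℝ) < A := by exact_mod_cast hA
  have hA2 : (0 : ℝ) < (A : ℝ) ^ 2 := by positivity
  have hN0 : 0 < N := by
    have : 0 < A ^ 2 := pow_pos hA 2
    omega
  have hNr : (0 : ℝ) < N := by exact_mod_cast hN0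
  have hR : (0 : ℝ) ≤ t * ((A : ℝ) ^ 2 / N) ^ (k + 1) := by positivity
  have hR' : (0 : ℝ) ≤ N * t * ((A : ℝ) ^ 2 / N) ^ (k + 1) := by positivity
  have hWs : (0 : ℝ) ≤ (1 / (A : ℝ) ^ 2) * ∑ m ∈ Ioc N N', ‖W k A (al k t β m)‖ :=
    mul_nonneg (by positivity) (Finset.sum_nonneg (fun _ _ => norm_nonneg _))
  rcases Nat.lt_or_ge N' N with hlt | hge
  · rw [Finset.Ioc_eq_empty (by omega), Finset.sum_empty, norm_zero]
    rw [Finset.Ioc_eq_empty (by omega)] at hWs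
    positivity
  set g : ℕ → ℂ := fun m => Complex.exp (-(t * Real.log ((m : ℝ) + β) : ℝ) * Complex.I) with hg
  have hg1 : ∀ m, ‖g m‖ = 1 := fun m => shift_norm t β m
  set S : ℂ := ∑ m ∈ Ioc N N', g m with hS
  -- averaging
  have h1 : ‖((A : ℝ) ^ 2 : ℝ) * S - ∑ x ∈ Icc 1 A, ∑ y ∈ Icc 1 A, ∑ m ∈ Ioc N N', g (m + x * y)‖
      ≤ (A : ℝ) ^ 2 * (2 * (A : ℝ) ^ 2) := by
    have e1 : (((A : ℝ) ^ 2 : ℝ) : ℂ) * S = ∑ x ∈ Icc 1 A, ∑ y ∈ Icc 1 A, S := by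
      rw [Finset.sum_const, Finset.sum_const, Nat.card_Icc, Nat.add_sub_cancel, nsmul_eq_mul,
        nsmul_eq_mul]
      push_cast
      ring
    rw [e1, ← Finset.sum_sub_distrib]
    have e2 : ∀ x ∈ Icc 1 A, ‖∑ y ∈ Icc 1 A, S - ∑ y ∈ Icc 1 A, ∑ m ∈ Ioc N N', g (m + x * y)‖ ≤
        A * (2 * (A : ℝ) ^ 2) := by
      intro x hx
      rw [← Finset.sum_sub_distrib]
      refine (norm_sum_le _ _).trans ?_
      have e3 : ∀ y ∈ Icc 1 A, ‖S - ∑ m ∈ Ioc N N', g (m + x * y)‖ ≤ 2 * (A : ℝ) ^ 2 := by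
        intro y hy
        refine (shift_sum g hg1 N N' (x * y) hge).trans ?_
        have h3 := (Finset.mem_Icc.1 hx).2
        have h4 := (Finset.mem_Icc.1 hy).2
        have h5 : x * y ≤ A ^ 2 := by rw [sq]; exact Nat.mul_le_mul h3 h4
        have h6 : ((x * y : ℕ) : ℝ) ≤ (A : ℝ) ^ 2 := by exact_mod_cast h5
        linarith
      refine (Finset.sum_le_sum e3).trans ?_
      rw [Finset.sum_const, Nat.card_Icc, Nat.add_sub_cancel, nsmul_eq_mul]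
    refine (norm_sum_le _ _).trans ((Finset.sum_le_sum e2).trans ?_)
    rw [Finset.sum_const, Nat.card_Icc, Nat.add_sub_cancel, nsmul_eq_mul]
    apply le_of_eq
    ring
  -- exchange
  have h2 : ∑ x ∈ Icc 1 A, ∑ y ∈ Icc 1 A, ∑ m ∈ Ioc N N', g (m + x * y) =
      ∑ m ∈ Ioc N N', ∑ x ∈ Icc 1 A, ∑ y ∈ Icc 1 A, g (m + x * y) := by
    rw [Finset.sum_congr rfl (fun x _ => Finset.sum_comm)]
    exact Finset.sum_comm
  -- Taylor
  have h3 : ∀ m ∈ Ioc N N', ‖∑ x ∈ Icc 1 A, ∑ y ∈ Icc 1 A, g (m + x * y)‖ ≤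
      ‖W k A (al k t β m)‖ + (A : ℝ) ^ 2 * (t * ((A : ℝ) ^ 2 / N) ^ (k + 1)) := by
    intro m hm
    have hm' := (Finset.mem_Ioc.1 hm).1
    have e1 : ‖∑ x ∈ Icc 1 A, ∑ y ∈ Icc 1 A, g (m + x * y) - g m * W k A (al k t β m)‖ ≤
        (A : ℝ) ^ 2 * (t * ((A : ℝ) ^ 2 / N) ^ (k + 1)) := by
      unfold W
      rw [Finset.mul_sum, ← Finset.sum_sub_distrib]
      have e2 : ∀ x ∈ Icc 1 A, ‖∑ y ∈ Icc 1 A, g (m + x * y) - g m * ∑ y ∈ Icc 1 A,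
          ez (∑ j : Fin k, al k t β m j *
            ((x : ℝ) ^ ((j : ℕ) + 1) * (y : ℝ) ^ ((j : ℕ) + 1)))‖ ≤
          A * (t * ((A : ℝ) ^ 2 / N) ^ (k + 1)) := by
        intro x hx
        rw [Finset.mul_sum, ← Finset.sum_sub_distrib]
        refine (norm_sum_le _ _).trans ?_
        have e3 : ∀ y ∈ Icc 1 A, ‖g (m + x * y) - g m * ez (∑ j : Fin k, al k t β m j *
            ((x : ℝ) ^ ((j : ℕ) + 1) * (y : ℝ) ^ ((j : ℕ) + 1)))‖ ≤
            t * ((A : ℝ) ^ 2 / N) ^ (k + 1) := by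
          intro y hy
          exact shift_term t β ht hβ N A k m x y hN0 hm' (Finset.mem_Icc.1 hx).2
            (Finset.mem_Icc.1 hy).2
        refine (Finset.sum_le_sum e3).trans ?_
        rw [Finset.sum_const, Nat.card_Icc, Nat.add_sub_cancel, nsmul_eq_mul]
      refine (norm_sum_le _ _).trans ((Finset.sum_le_sum e2).trans ?_)
      rw [Finset.sum_const, Nat.card_Icc, Nat.add_sub_cancel, nsmul_eq_mul]
      apply le_of_eq
      ring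
    have e4 : ‖g m * W k A (al k t β m)‖ = ‖W k A (al k t β m)‖ := by
      rw [norm_mul, hg1, one_mul]
    rw [← e4]
    have e5 := norm_le_norm_add_norm_sub' (∑ x ∈ Icc 1 A, ∑ y ∈ Icc 1 A, g (m + x * y))
      (g m * W k A (al k t β m))
    linarith
  have h4 : ‖∑ m ∈ Ioc N N', ∑ x ∈ Icc 1 A, ∑ y ∈ Icc 1 A, g (m + x * y)‖ ≤
      ∑ m ∈ Ioc N N', ‖W k A (al k t β m)‖ +
        N * ((A : ℝ) ^ 2 * (t * ((A : ℝ) ^ 2 / N) ^ (k + 1))) := by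
    refine (norm_sum_le _ _).trans ((Finset.sum_le_sum h3).trans ?_)
    rw [Finset.sum_add_distrib, Finset.sum_const, Nat.card_Ioc, nsmul_eq_mul]
    have h5 : ((N' - N : ℕ) : ℝ) ≤ N := by
      have : N' - N ≤ N := by omega
      exact_mod_cast this
    have h6 : (0 : ℝ) ≤ (A : ℝ) ^ 2 * (t * ((A : ℝ) ^ 2 / N) ^ (k + 1)) := by positivity
    have := mul_le_mul_of_nonneg_right h5 h6
    linarith
  rw [h2] at h1
  have h5 : (A : ℝ) ^ 2 * ‖S‖ ≤ ∑ m ∈ Ioc N N', ‖W k A (al k t β m)‖ +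
      N * ((A : ℝ) ^ 2 * (t * ((A : ℝ) ^ 2 / N) ^ (k + 1))) + (A : ℝ) ^ 2 * (2 * (A : ℝ) ^ 2) := by
    have e1 : ‖(((A : ℝ) ^ 2 : ℝ) : ℂ) * S‖ = (A : ℝ) ^ 2 * ‖S‖ := by
      rw [norm_mul, Complex.norm_real, Real.norm_of_nonneg hA2.le]
    rw [← e1]
    have e2 := norm_le_norm_add_norm_sub' ((((A : ℝ) ^ 2 : ℝ) : ℂ) * S)
      (∑ m ∈ Ioc N N', ∑ x ∈ Icc 1 A, ∑ y ∈ Icc 1 A, g (m + x * y))
    linarith
  have h6 : ‖S‖ = (1 / (A : ℝ) ^ 2) * ((A : ℝ) ^ 2 * ‖S‖) := by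
    field_simp
  rw [h6]
  refine (mul_le_mul_of_nonneg_left h5 (by positivity)).trans (le_of_eq ?_)
  field_simp
  ring

end Pool.Agent.H43.ZS
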