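import Pool.Agent.H43.ZS.Defs

/-!
# [H43 ZS UB] Two bounds for `U θ V`

(a) `U θ V <= 9 V^2` for `V >= 1` (trivial).
(b) `U θ V <= 64 (1 + log V) V^2 (|θ| + 1/V + 1/(|θ| V^2))` for `V >= 1`, `0 < |θ| <= 1/2`.

PROOF. (a) `(2V+1)^2 <= 9V^2`. (b) `U` is even in `θ`, let `θ > 0`. Write `‖u‖` for the distance of `u`
to the nearest integer (`|u - round u|`). Geometric sum: `|Σ_{|μ|<=V} ez(u μ)| <= min(2V+1, 1/(2‖u‖))`
(`|ez(u) - 1| = 2|sin πu| >= 4‖u‖`, the sum of `2V+1` consecutive powers is `<= 2/|ez(u)-1|`; if `‖u‖ = 0`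
only the first bound is used). Let `L = ⌊1/θ⌋ >= 2` and cut the `2V+1` integers `ν ∈ [-V,V]` into
`n <= (2V+1)/L + 1` blocks of at most `min(L, 2V+1)` consecutive integers. Within one block any two
different `ν, ν'` have `‖θν - θν'‖ >= θ` (since `θ <= θ|ν-ν'| <= (L-1)θ <= 1 - θ`). So for every
`r > 0` at most `2r/θ + 1` of the `ν` of the block have `‖θν‖ < r` (points of the circle with mutual distances
`>= θ` in an arc of length `2r`). Order the block by `d_1 <= d_2 <= ...` (`d = ‖θν‖`): `n <= 2 d_n/θ + 1`,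
so `d_n >= (n-1)θ/2`. [Simpler for Lean: put `ν` in the cell `i = ⌊2‖θν‖/θ⌋`; each cell `i` contains
at most 4 of the `ν` of the block, because `‖θν‖ ∈ [iθ/2,(i+1)θ/2)` leaves two arcs of length `θ/2`,
each containing at most one point; so the block sum is at most
`2(2V+1) + 2 Σ_{i=1}^{..} 1/(iθ)`, the number of occupied cells being at most the number of points,
and the sum is largest if the cells `1,2,..` are filled first; another way: cells with `i >= 1`,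
`i <= 1/θ`, and if `1/θ > 2V+1` bound by rearrangement or treat the two cases
`1/θ <= (2V+1)^2`, where `log(1/θ) <= 2 log(2V+1)`, and `1/θ > (2V+1)^2`, where the trivial bound (a) is
`9V^2 <= ... 1/(θ V^2) V^2`, already enough.] Hence, if `1/θ <= (2V+1)^2`:
block sum `<= 2(2V+1) + (2/θ)(1 + log(1/θ)) <= 6V + (2/θ)(1 + 2 log(2V+1)) <= (..)(1+log V)(V + 1/θ)`, and the
number of blocks is `<= (2V+1)/L + 1 <= 6Vθ + 1` (`L >= 1/θ - 1 >= 1/(2θ)`). The product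
`(6Vθ+1)(V+1/θ) = 6V^2θ + 6V + V + 1/θ = V^2 (6θ + 7/V + 1/(θV^2))`.
If your constant comes out larger than 64, mail helper43 (any absolute constant is fine).
-/

namespace Pool.Agent.H43.ZS

open Finset

theorem ub_ez (u : ℝ) : ez u = Complex.exp (((2 * Real.pi * u : ℝ) : ℂ) * Complex.I) := by
  unfold ez
  push_cast
  ring_nf

theorem ub_norm (u : ℝ) : ‖ez u‖ = 1 := by
  rw [ub_ez, Complex.norm_exp_ofReal_mul_I]

theorem ub_add (u v : ℝ) : ez (u + v) = ez u * ez v := by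
  unfold ez
  rw [← Complex.exp_add]
  congr 1
  push_cast
  ring

theorem ub_int (n : ℤ) : ez n = 1 := by
  unfold ez
  have e : 2 * (Real.pi : ℂ) * ((n : ℝ) : ℂ) * Complex.I = (n : ℂ) * (2 * Real.pi * Complex.I) := by
    push_cast
    ring
  rw [e, Complex.exp_int_mul_two_pi_mul_I]

theorem ub_dist (u : ℝ) : 4 * |u - round u| ≤ ‖ez u - 1‖ := by
  set w : ℝ := u - round u with hw
  have h1 : ez u = ez w := by
    have : u = w + (round u : ℝ) := by rw [hw]; ring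
    conv_lhs => rw [this]
    rw [ub_add, ub_int, mul_one]
  have h2 : ‖ez w - 1‖ = 2 * |Real.sin (Real.pi * w)| := by
    have h3 := Complex.norm_exp_I_mul_ofReal_sub_one (2 * Real.pi * w)
    rw [ub_ez, mul_comm, h3, Real.norm_eq_abs, abs_mul, abs_two]
    congr 2
    ring_nf
  have h4 : |w| ≤ 1 / 2 := abs_sub_round u
  have h5 : |Real.pi * w| ≤ Real.pi / 2 := by
    rw [abs_mul, abs_of_pos Real.pi_pos]
    nlinarith [Real.pi_pos]
  have h6 := Real.mul_abs_le_abs_sin h5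
  rw [abs_mul Real.pi w, abs_of_pos Real.pi_pos] at h6
  have h7 : 2 / Real.pi * (Real.pi * |w|) = 2 * |w| := by
    field_simp
  rw [h1, h2]
  linarith

theorem ub_geom (u : ℝ) (V : ℕ) :
    ‖∑ μ ∈ Icc (-(V : ℤ)) (V : ℤ), ez (u * μ)‖ * (4 * |u - round u|) ≤ 2 := by
  have hS : ∑ μ ∈ Icc (-(V : ℤ)) (V : ℤ), ez (u * μ) =
      ∑ j ∈ range (2 * V + 1), ez (u * ((j : ℝ) - V)) := by
    refine Finset.sum_nbij' (fun μ : ℤ => (μ + V).toNat) (fun j : ℕ => (j : ℤ) - V) ?_ ?_ ?_ ?_ ?_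
    · intro μ hμ
      rw [mem_Icc] at hμ
      rw [mem_range]
      omega
    · intro j hj
      rw [mem_range] at hj
      rw [mem_Icc]
      omega
    · intro μ hμ
      rw [mem_Icc] at hμ
      show ((μ + V).toNat : ℤ) - V = μ
      omega
    · intro j hj
      show ((j : ℤ) - V + V).toNat = j
      omega
    · intro μ hμ
      rw [mem_Icc] at hμ
      have h1 : (((μ + V).toNat : ℕ) : ℤ) = μ + V := Int.toNat_of_nonneg (by omega)
      have h2 : (((μ + V).toNat : ℕ) : ℝ) = (μ : ℝ) + V := by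
        have h3 : ((((μ + V).toNat : ℕ) : ℤ) : ℝ) = ((μ + V : ℤ) : ℝ) := by rw [h1]
        rw [Int.cast_natCast] at h3
        rw [h3]
        push_cast
        ring
      show ez (u * μ) = ez (u * ((((μ + V).toNat : ℕ) : ℝ) - V))
      rw [h2]
      congr 2
      ring
  have hT : (ez u - 1) * ∑ j ∈ range (2 * V + 1), ez (u * ((j : ℝ) - V)) =
      ez (u * (((2 * V + 1 : ℕ) : ℝ) - V)) - ez (u * (((0 : ℕ) : ℝ) - V)) := by
    rw [← Finset.sum_range_sub (fun j : ℕ => ez (u * ((j : ℝ) - V))), Finset.mul_sum]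
    refine Finset.sum_congr rfl (fun j _ => ?_)
    have : u * (((j + 1 : ℕ) : ℝ) - V) = u + u * ((j : ℝ) - V) := by
      push_cast
      ring
    rw [this, ub_add]
    ring
  rw [hS]
  calc ‖∑ j ∈ range (2 * V + 1), ez (u * ((j : ℝ) - V))‖ * (4 * |u - round u|)
      ≤ ‖∑ j ∈ range (2 * V + 1), ez (u * ((j : ℝ) - V))‖ * ‖ez u - 1‖ :=
        mul_le_mul_of_nonneg_left (ub_dist u) (norm_nonneg _)
    _ = ‖(ez u - 1) * ∑ j ∈ range (2 * V + 1), ez (u * ((j : ℝ) - V))‖ := by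
        rw [norm_mul, mul_comm]
    _ ≤ ‖ez (u * (((2 * V + 1 : ℕ) : ℝ) - V))‖ + ‖ez (u * (((0 : ℕ) : ℝ) - V))‖ := by
        rw [hT]
        exact norm_sub_le _ _
    _ = 2 := by rw [ub_norm, ub_norm]; norm_num

theorem ub_inner_le (θ : ℝ) (V : ℕ) (ν : ℤ) :
    ‖∑ μ ∈ Icc (-(V : ℤ)) (V : ℤ), ez (θ * μ * ν)‖ ≤ 2 * V + 1 := by
  refine (norm_sum_le _ _).trans ?_
  rw [Finset.sum_congr rfl (fun μ _ => ub_norm _), Finset.sum_const, nsmul_eq_mul, mul_one,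
    Int.card_Icc]
  have : ((V : ℤ) + 1 - -(V : ℤ)).toNat = 2 * V + 1 := by omega
  rw [this]
  push_cast
  exact le_rfl

theorem u_triv (θ : ℝ) (V : ℕ) (hV : 1 ≤ V) : U θ V ≤ 9 * (V : ℝ) ^ 2 := by
  unfold U
  refine (Finset.sum_le_card_nsmul _ _ _ (fun ν _ => ub_inner_le θ V ν)).trans ?_
  rw [nsmul_eq_mul, Int.card_Icc]
  have : ((V : ℤ) + 1 - -(V : ℤ)).toNat = 2 * V + 1 := by omega
  rw [this]
  push_cast
  have h1 : (1 : ℝ) ≤ V := by exact_mod_cast hV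
  nlinarith

/-- the model for the terms of one fibre -/
noncomputable def ubg (θ M : ℝ) (k : ℤ) : ℝ := if k = 0 then M else 1 / (θ * |(k : ℝ)|)

theorem ubg_sum (θ M : ℝ) (R : ℕ) :
    ∑ k ∈ Icc (-(R : ℤ)) (R : ℤ), ubg θ M k = M + 2 / θ * (harmonic R : ℝ) := by
  induction R with
  | zero => simp [ubg, harmonic]
  | succ R ih =>
    have h1 : Icc (-((R + 1 : ℕ) : ℤ)) ((R + 1 : ℕ) : ℤ) =
        insert ((R + 1 : ℕ) : ℤ) (insert (-((R + 1 : ℕ) : ℤ)) (Icc (-(R : ℤ)) (R : ℤ))) := by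
      ext k
      rw [mem_insert, mem_insert, mem_Icc, mem_Icc]
      push_cast
      omega
    rw [h1, Finset.sum_insert, Finset.sum_insert, ih, harmonic_succ]
    · unfold ubg
      rw [if_neg (by push_cast; omega), if_neg (by push_cast; omega)]
      have h2 : |(((R + 1 : ℕ) : ℤ) : ℝ)| = (R : ℝ) + 1 := by
        push_cast
        exact abs_of_nonneg (by positivity)
      have h3 : |((-((R + 1 : ℕ) : ℤ) : ℤ) : ℝ)| = (R : ℝ) + 1 := by
        rw [Int.cast_neg, abs_neg, h2]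
      rw [h2, h3]
      push_cast
      by_cases hθ : θ = 0
      · rw [hθ]
        simp
      · field_simp
        ring
    · rw [mem_Icc]
      omega
    · rw [mem_insert, mem_Icc]
      omega

theorem ub_key (θ : ℝ) (hθ : 0 < θ) (V : ℕ) (ν : ℤ)
    (hk : ν - round ((round (θ * ν) : ℝ) / θ) ≠ 0) :
    ‖∑ μ ∈ Icc (-(V : ℤ)) (V : ℤ), ez (θ * μ * ν)‖ ≤
      1 / (θ * |((ν - round ((round (θ * ν) : ℝ) / θ) : ℤ) : ℝ)|) := by
  set n : ℤ := round (θ * ν) with hn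
  set ν0 : ℤ := round ((n : ℝ) / θ) with hν0
  have hg := ub_geom (θ * ν) V
  have e1 : ∑ μ ∈ Icc (-(V : ℤ)) (V : ℤ), ez (θ * ν * μ) =
      ∑ μ ∈ Icc (-(V : ℤ)) (V : ℤ), ez (θ * μ * ν) := by
    refine Finset.sum_congr rfl (fun μ _ => ?_)
    congr 1
    ring
  rw [e1, ← hn] at hg
  set S := ‖∑ μ ∈ Icc (-(V : ℤ)) (V : ℤ), ez (θ * μ * ν)‖ with hS
  have hS0 : 0 ≤ S := norm_nonneg _
  have hk1 : (1 : ℝ) ≤ |((ν - ν0 : ℤ) : ℝ)| := by
    have : 1 ≤ |ν - ν0| := Int.one_le_abs hk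
    exact_mod_cast this
  have h1 : |(n : ℝ) / θ - ν0| ≤ 1 / 2 := abs_sub_round _
  have h2 : |((ν - ν0 : ℤ) : ℝ)| ≤ |(ν : ℝ) - (n : ℝ) / θ| + |(n : ℝ) / θ - ν0| := by
    have : ((ν - ν0 : ℤ) : ℝ) = ((ν : ℝ) - (n : ℝ) / θ) + ((n : ℝ) / θ - ν0) := by
      push_cast
      ring
    rw [this]
    exact abs_add_le _ _
  have h3 : |θ * ν - n| = θ * |(ν : ℝ) - (n : ℝ) / θ| := by
    have : θ * ν - n = θ * ((ν : ℝ) - (n : ℝ) / θ) := by
      field_simp
    rw [this, abs_mul, abs_of_pos hθ]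
  have h4 : θ * |((ν - ν0 : ℤ) : ℝ)| ≤ 2 * |θ * ν - n| := by
    rw [h3]
    nlinarith
  rw [le_div_iff₀ (by positivity)]
  nlinarith

theorem ub_range (θ : ℝ) (hθ : 0 < θ) (hθ1 : θ ≤ 1) (ν : ℤ) :
    |((ν - round ((round (θ * ν) : ℝ) / θ) : ℤ) : ℝ)| ≤ 1 / θ := by
  set n : ℤ := round (θ * ν) with hn
  set ν0 : ℤ := round ((n : ℝ) / θ) with hν0
  have h1 : |(n : ℝ) / θ - ν0| ≤ 1 / 2 := abs_sub_round _
  have h2 : |((ν - ν0 : ℤ) : ℝ)| ≤ |(ν : ℝ) - (n : ℝ) / θ| + |(n : ℝ) / θ - ν0| := by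
    have : ((ν - ν0 : ℤ) : ℝ) = ((ν : ℝ) - (n : ℝ) / θ) + ((n : ℝ) / θ - ν0) := by
      push_cast
      ring
    rw [this]
    exact abs_add_le _ _
  have h5 : |θ * ν - n| ≤ 1 / 2 := abs_sub_round _
  have h3 : |(ν : ℝ) - (n : ℝ) / θ| = |θ * ν - n| / θ := by
    have : (ν : ℝ) - (n : ℝ) / θ = (θ * ν - n) / θ := by
      field_simp
    rw [this, abs_div, abs_of_pos hθ]
  have h6 : |θ * ν - n| / θ ≤ 1 / 2 / θ := div_le_div_of_nonneg_right h5 hθ.le
  have h7 : 1 / 2 ≤ 1 / 2 / θ := by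
    rw [le_div_iff₀ hθ]
    linarith
  have h8 : 1 / 2 / θ + 1 / 2 / θ = 1 / θ := by ring
  linarith

theorem ub_fibre (θ : ℝ) (hθ : 0 < θ) (hθ1 : θ ≤ 1) (V : ℕ) (n : ℤ) :
    ∑ ν ∈ (Icc (-(V : ℤ)) (V : ℤ)).filter (fun ν : ℤ => round (θ * (ν : ℝ)) = n),
      ‖∑ μ ∈ Icc (-(V : ℤ)) (V : ℤ), ez (θ * μ * ν)‖ ≤
      (2 * V + 1) + 2 / θ * (harmonic ⌊1 / θ⌋₊ : ℝ) := by
  rw [← ubg_sum θ (2 * V + 1) ⌊1 / θ⌋₊]
  have hinj : Set.InjOn (fun ν : ℤ => ν - round ((n : ℝ) / θ))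
      ((Icc (-(V : ℤ)) (V : ℤ)).filter (fun ν : ℤ => round (θ * (ν : ℝ)) = n) : Set ℤ) := by
    intro a _ b _ hab
    have : a - round ((n : ℝ) / θ) = b - round ((n : ℝ) / θ) := hab
    omega
  calc ∑ ν ∈ (Icc (-(V : ℤ)) (V : ℤ)).filter (fun ν : ℤ => round (θ * (ν : ℝ)) = n),
      ‖∑ μ ∈ Icc (-(V : ℤ)) (V : ℤ), ez (θ * μ * ν)‖
      ≤ ∑ ν ∈ (Icc (-(V : ℤ)) (V : ℤ)).filter (fun ν : ℤ => round (θ * (ν : ℝ)) = n),
        ubg θ (2 * V + 1) (ν - round ((n : ℝ) / θ)) := by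
        refine Finset.sum_le_sum (fun ν hν => ?_)
        rw [mem_filter] at hν
        unfold ubg
        split_ifs with h0
        · exact ub_inner_le θ V ν
        · have := ub_key θ hθ V ν (by rw [hν.2]; exact h0)
          rw [hν.2] at this
          exact this
    _ = ∑ k ∈ ((Icc (-(V : ℤ)) (V : ℤ)).filter (fun ν : ℤ => round (θ * (ν : ℝ)) = n)).image
          (fun ν : ℤ => ν - round ((n : ℝ) / θ)), ubg θ (2 * V + 1) k := by
        rw [Finset.sum_image hinj]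
    _ ≤ ∑ k ∈ Icc (-((⌊1 / θ⌋₊ : ℕ) : ℤ)) ((⌊1 / θ⌋₊ : ℕ) : ℤ), ubg θ (2 * V + 1) k := by
        apply Finset.sum_le_sum_of_subset_of_nonneg
        · intro k hk
          rw [mem_image] at hk
          obtain ⟨ν, hν, rfl⟩ := hk
          rw [mem_filter] at hν
          have h1 := ub_range θ hθ hθ1 ν
          rw [hν.2] at h1
          have h2 : ((ν - round ((n : ℝ) / θ)).natAbs : ℝ) ≤ 1 / θ := by
            rw [Nat.cast_natAbs]
            exact_mod_cast h1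
          have h3 : (ν - round ((n : ℝ) / θ)).natAbs ≤ ⌊1 / θ⌋₊ := Nat.le_floor h2
          rw [mem_Icc]
          omega
        · intro k _ _
          unfold ubg
          split_ifs
          · positivity
          · positivity

theorem ub_pos (θ : ℝ) (hθ : 0 < θ) (hθ1 : θ ≤ 1) (V : ℕ) :
    U θ V ≤ (2 * (θ * V) + 2) * ((2 * V + 1) + 2 / θ * (harmonic ⌊1 / θ⌋₊ : ℝ)) := by
  set N : ℕ := ⌊θ * V + 1 / 2⌋₊ with hN
  have hmaps : ∀ ν ∈ Icc (-(V : ℤ)) (V : ℤ), round (θ * ν) ∈ Icc (-(N : ℤ)) (N : ℤ) := by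
    intro ν hν
    rw [mem_Icc] at hν
    have h1 : |θ * ν - round (θ * ν)| ≤ 1 / 2 := abs_sub_round _
    have h2 : |(ν : ℝ)| ≤ V := by
      rw [abs_le]
      constructor
      · exact_mod_cast hν.1
      · exact_mod_cast hν.2
    have h3 : |((round (θ * ν) : ℤ) : ℝ)| ≤ θ * V + 1 / 2 := by
      have e : ((round (θ * ν) : ℤ) : ℝ) = θ * ν - (θ * ν - round (θ * ν)) := by ring
      rw [e]
      refine (abs_sub _ _).trans ?_
      rw [abs_mul, abs_of_pos hθ]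
      have := mul_le_mul_of_nonneg_left h2 hθ.le
      linarith
    have h4 : (((round (θ * ν)).natAbs : ℕ) : ℝ) ≤ θ * V + 1 / 2 := by
      rw [Nat.cast_natAbs]
      exact_mod_cast h3
    have h5 : (round (θ * ν)).natAbs ≤ N := Nat.le_floor h4
    rw [mem_Icc]
    omega
  unfold U
  rw [← Finset.sum_fiberwise_of_maps_to hmaps]
  refine (Finset.sum_le_card_nsmul _ _ _ (fun n _ => ub_fibre θ hθ hθ1 V n)).trans ?_
  rw [nsmul_eq_mul, Int.card_Icc]
  have h6 : ((N : ℤ) + 1 - -(N : ℤ)).toNat = 2 * N + 1 := by omega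
  rw [h6]
  have h7 : (N : ℝ) ≤ θ * V + 1 / 2 := Nat.floor_le (by positivity)
  have h8 : (0 : ℝ) ≤ (harmonic ⌊1 / θ⌋₊ : ℝ) := by
    unfold harmonic
    positivity
  apply mul_le_mul_of_nonneg_right
  · push_cast
    linarith
  · positivity

theorem ub_even (θ : ℝ) (V : ℕ) : U (-θ) V = U θ V := by
  unfold U
  refine Finset.sum_nbij' (fun ν : ℤ => -ν) (fun ν : ℤ => -ν) ?_ ?_ ?_ ?_ ?_
  · intro ν hν
    rw [mem_Icc] at hν ⊢
    omega
  · intro ν hν
    rw [mem_Icc] at hν ⊢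
    omega
  · intro ν _
    exact neg_neg ν
  · intro ν _
    exact neg_neg ν
  · intro ν _
    congr 1
    refine Finset.sum_congr rfl (fun μ _ => ?_)
    congr 1
    push_cast
    ring

theorem u_bd (θ : ℝ) (V : ℕ) (hV : 1 ≤ V) (h0 : θ ≠ 0) (h1 : |θ| ≤ 1 / 2) :
    U θ V ≤ 640 * (1 + Real.log V) * ((V : ℝ) ^ 2 * (|θ| + 1 / V + 1 / (|θ| * (V : ℝ) ^ 2))) := by
  have hU : U θ V = U |θ| V := by
    rcases abs_choice θ with h | h
    · rw [h]
    · rw [h, ub_even]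
  rw [hU]
  set t : ℝ := |θ| with ht
  have ht0 : 0 < t := abs_pos.2 h0
  have hV1 : (1 : ℝ) ≤ V := by exact_mod_cast hV
  have hV0 : (0 : ℝ) < V := by linarith
  have hlog : 0 ≤ Real.log V := Real.log_nonneg hV1
  have hinv : 0 < 1 / t := by positivity
  have e1 : (V : ℝ) ^ 2 * (t + 1 / V + 1 / (t * (V : ℝ) ^ 2)) = t * (V : ℝ) ^ 2 + V + 1 / t := by
    field_simp
  rw [e1]
  have htV : 0 ≤ t * (V : ℝ) ^ 2 := by positivity
  by_cases hc : (V : ℝ) ^ 2 ≤ 1 / t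
  · refine (u_triv t V hV).trans ?_
    have h2 : 9 * (V : ℝ) ^ 2 ≤ 640 * (t * (V : ℝ) ^ 2 + V + 1 / t) := by nlinarith
    have h3 : 640 * (t * (V : ℝ) ^ 2 + V + 1 / t) ≤
        640 * (1 + Real.log V) * (t * (V : ℝ) ^ 2 + V + 1 / t) := by
      have : 0 ≤ t * (V : ℝ) ^ 2 + V + 1 / t := by positivity
      nlinarith
    exact h2.trans h3
  · rw [not_le] at hc
    have hb := ub_pos t ht0 (by linarith) V
    have hharm : (harmonic ⌊1 / t⌋₊ : ℝ) ≤ 1 + 2 * Real.log V := by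
      refine (harmonic_le_one_add_log _).trans ?_
      have hf1 : 1 ≤ ⌊1 / t⌋₊ := by
        apply Nat.le_floor
        rw [Nat.cast_one, le_div_iff₀ ht0]
        linarith
      have hf0 : (0 : ℝ) < ⌊1 / t⌋₊ := by exact_mod_cast hf1
      have hf2 : (⌊1 / t⌋₊ : ℝ) ≤ 1 / t := Nat.floor_le hinv.le
      have h3 : Real.log ⌊1 / t⌋₊ ≤ Real.log ((V : ℝ) ^ 2) :=
        Real.log_le_log hf0 (hf2.trans hc.le)
      rw [Real.log_pow] at h3
      push_cast at h3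
      linarith
    refine hb.trans ?_
    have h4 : (2 * (V : ℝ) + 1) + 2 / t * (harmonic ⌊1 / t⌋₊ : ℝ) ≤
        4 * (1 + Real.log V) * (V + 1 / t) := by
      have h5 : 2 / t * (harmonic ⌊1 / t⌋₊ : ℝ) ≤ 2 / t * (1 + 2 * Real.log V) :=
        mul_le_mul_of_nonneg_left hharm (by positivity)
      have h6 : 2 / t * (1 + 2 * Real.log V) ≤ 4 * (1 + Real.log V) * (1 / t) := by
        have : 2 / t = 2 * (1 / t) := by ring
        rw [this]
        nlinarith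
      have h7 : 2 * (V : ℝ) + 1 ≤ 4 * (1 + Real.log V) * V := by nlinarith
      have h8 : 4 * (1 + Real.log V) * (V + 1 / t) =
        4 * (1 + Real.log V) * V + 4 * (1 + Real.log V) * (1 / t) := by ring
      linarith
    have h9 : 0 ≤ 2 * (t * V) + 2 := by positivity
    refine (mul_le_mul_of_nonneg_left h4 h9).trans ?_
    have h10 : (2 * (t * V) + 2) * (4 * (1 + Real.log V) * (V + 1 / t)) =
        (8 * (1 + Real.log V)) * (t * (V : ℝ) ^ 2 + 2 * V + 1 / t) := by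
      field_simp
      ring
    rw [h10]
    have h11 : (8 * (1 + Real.log V)) * (t * (V : ℝ) ^ 2 + 2 * V + 1 / t) ≤
        (8 * (1 + Real.log V)) * (80 * (t * (V : ℝ) ^ 2 + V + 1 / t)) := by
      apply mul_le_mul_of_nonneg_left _ (by positivity)
      nlinarith
    refine h11.trans (le_of_eq ?_)
    ring

end Pool.Agent.H43.ZS
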