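import Pool.Agent.H43.ZS.Dbl
import Pool.Agent.H43.ZS.UB

/-!
# [H43 ZS WB] The bound for `W`

There are `C, c > 0` such that for all `k >= 2`, `N >= 2`, `t` with `N^((k-1)/3) < t <= N^(k/3)`,
`N <= t^2`, all `m ∈ (N, 2N]`, `0 <= β <= 1`, and `A = ⌊N^(1/3)⌋`:
`‖W k A (al k t β m)‖ <= A^2 exp(C k^3) (1 + log N) N^(-c/k^2)`.

PROOF. Take `c = 1/141120`. Trivially `‖W‖ <= A^2`, so if `log N <= C0 k^5` the claim holds as soon as
`C >= c C0`. Let `log N > C0 k^5` (`C0` a large constant, to be chosen; only used for `N >= 8`).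
Put `l = 6k+1`, `s = k l`, `κ = log t/log N`, so `t = N^κ`, `1/2 <= κ`, `(k-1)/3 < κ <= k/3`, hence
`κ >= k/6` and `κ^2 >= k^2/36`. `A >= N^(1/3)/2`, `A <= N^(1/3)`.
Let `K` be the set of integers `j` with `1.2κ <= j <= 2.4κ`; they lie in `[1,k]` (`2.4κ <= 0.8k`), and
`#K >= 0.4κ`: for `κ < 5/6` `j = 1` works; for `κ >= 5/6` there are at least `max(1, 1.2κ-1)`
integers. For `j ∈ K`, `θ = |al_j| = t/(2π j (m+β)^j)` and `V = s A^j`:
* `θ <= N^(κ-j) <= N^(-κ/5)` and `θ <= 1/(2π) <= 1/2` (`m+β >= N`, `t <= N^j`);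
* `1/V <= 2^j N^(-j/3) <= 2^k N^(-κ/5)`;
* `1/(θV^2) <= 2πj (m+β)^j t^(-1) A^(-2j) <= 2πj 3^j 4^j N^(j-κ-2j/3) <= 2πk 12^k N^(-κ/5)`
  (`m+β <= 3N`, `j/3 - κ <= -κ/5`).
So by `u_bd` `U(al_j, V) <= 640 (1+log V) V^2 * 3 * 2πk 12^k N^(-κ/5)`, with
`log V <= log s + k log N <= s + k log N`, `V^2 = s^2 A^(2j)`. For `j ∉ K` use `u_triv`.
Hence `∏_j U(al_j, sA^j) <= A^(k(k+1)) (9s^2)^k [640*6π k 12^k (1+s+k log N)]^k N^(-(κ/5)(0.4κ))`
(all factors in the brackets are `>= 1`), and `N^(-0.08κ^2) <= N^(-k^2/450)`.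
By `VM.vmvt` `J(k,s,A)^2 <= 2^(80 k^5 l^2) A^(2 lamb k l)`, `2 lamb = 4s - k(k+1) + 2δ`,
`δ = (k(k-1)/2)(1-1/k)^(6k) <= (k^2/2) e^(-6) <= k^2/800`, so `A^(2δ) <= N^(2δ/3) <= N^(k^2/1200)`.
`dbl`: `‖W‖^(4s^2) <= A^(8s^2) N^(-k^2/720) 2^(80k^5l^2) (9s^2)^k [..]^k`
(`1/450 - 1/1200 = 1/720`). With `6k^2 <= s <= 7k^2`, `l <= 7k`: the constant is
`<= exp(C1 k^7) (1+log N)^k`, `4s^2 >= 144k^4`, `4s^2 <= 196k^4`. Take the root of order `4s^2`:
`‖W‖ <= A^2 N^(-1/(720*196 k^2)) exp(C1 k^3/144) (1+log N)`.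
-/

namespace Pool.Agent.H43.ZS

open Finset

theorem wb_card (κ : ℝ) (k : ℕ) (h1 : 1 / 2 ≤ κ) (h2 : κ ≤ (k : ℝ) / 3) :
    2 / 5 * κ ≤ ((Finset.univ.filter (fun j : Fin k => 6 / 5 * κ ≤ ((j : ℕ) : ℝ) + 1 ∧
      ((j : ℕ) : ℝ) + 1 ≤ 12 / 5 * κ)).card : ℝ) := by
  set S := (Finset.univ.filter (fun j : Fin k => 6 / 5 * κ ≤ ((j : ℕ) : ℝ) + 1 ∧
      ((j : ℕ) : ℝ) + 1 ≤ 12 / 5 * κ)) with hS
  set a := ⌈6 / 5 * κ⌉₊ with ha
  set b := ⌊12 / 5 * κ⌋₊ with hb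
  have hb1 : (b : ℝ) ≤ 12 / 5 * κ := Nat.floor_le (by linarith)
  have hb2 : 12 / 5 * κ < (b : ℝ) + 1 := Nat.lt_floor_add_one _
  have ha1 : 6 / 5 * κ ≤ (a : ℝ) := Nat.le_ceil _
  have ha2 : (a : ℝ) < 6 / 5 * κ + 1 := Nat.ceil_lt_add_one (by linarith)
  have ha3 : 1 ≤ a := Nat.one_le_ceil_iff.2 (by linarith)
  have hbk : b ≤ k := by
    have : (b : ℝ) ≤ k := by linarith
    exact_mod_cast this
  have hcard : (Icc a b).card ≤ S.card := by
    have hsub : Icc a b ⊆ S.image (fun j : Fin k => (j : ℕ) + 1) := by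
      intro x hx
      rw [Finset.mem_Icc] at hx
      rw [Finset.mem_image]
      refine ⟨⟨x - 1, by omega⟩, ?_, ?_⟩
      · rw [hS, Finset.mem_filter]
        refine ⟨Finset.mem_univ _, ?_⟩
        have e : (((x - 1 : ℕ)) : ℝ) + 1 = (x : ℝ) := by
          have : ((x - 1 + 1 : ℕ) : ℝ) = (x : ℝ) := by
            congr 1; omega
          rw [← this]; push_cast; ring
        simp only
        rw [e]
        have hx1 : (a : ℝ) ≤ x := by exact_mod_cast hx.1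
        have hx2 : (x : ℝ) ≤ b := by exact_mod_cast hx.2
        constructor <;> linarith
      · simp only
        omega
    exact (Finset.card_le_card hsub).trans Finset.card_image_le
  rw [Nat.card_Icc] at hcard
  have hcard' : ((b + 1 - a : ℕ) : ℝ) ≤ (S.card : ℝ) := by exact_mod_cast hcard
  have hab : a ≤ b := by
    by_cases hκ : κ ≤ 5 / 6
    · have h3 : a ≤ 1 := by
        rw [ha, Nat.ceil_le]; push_cast; linarith
      have h4 : 1 ≤ b := by
        rw [hb, Nat.le_floor_iff (by linarith)]; push_cast; linarith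
      omega
    · push Not at hκ
      have h5 : (a : ℝ) < (b : ℝ) + 1 := by linarith
      have : a < b + 1 := by exact_mod_cast h5
      omega
  have h6 : (1 : ℝ) ≤ ((b + 1 - a : ℕ) : ℝ) := by
    have : 1 ≤ b + 1 - a := by omega
    exact_mod_cast this
  have h7 : ((b + 1 - a : ℕ) : ℝ) = (b : ℝ) + 1 - a := by
    rw [Nat.cast_sub (by omega)]; push_cast; ring
  by_cases hκ : κ ≤ 5 / 2
  · linarith
  · push Not at hκ
    linarith

theorem wb_exp_six : (400 : ℝ) ≤ Real.exp 6 := by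
  have h1 := Real.exp_one_gt_d9
  have h2 : Real.exp 6 = (Real.exp 1) ^ 6 := by
    rw [← Real.exp_nat_mul]; norm_num
  rw [h2]
  calc (400 : ℝ) ≤ 2.7182818283 ^ 6 := by norm_num
    _ ≤ _ := pow_le_pow_left₀ (by norm_num) h1.le 6

theorem wb_delta (k : ℕ) (hk : 2 ≤ k) :
    (k : ℝ) * (k - 1) / 2 * (1 - 1 / (k : ℝ)) ^ (6 * k) ≤ (k : ℝ) ^ 2 / 800 := by
  have hk' : (2 : ℝ) ≤ k := by exact_mod_cast hk
  have h1 : (1 - 1 / (k : ℝ)) ^ k ≤ Real.exp (-1) :=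
    Real.one_sub_div_pow_le_exp_neg (n := k) (t := 1) (by linarith)
  have h0 : 0 ≤ 1 - 1 / (k : ℝ) := by
    rw [sub_nonneg, div_le_one (by linarith)]; linarith
  have h2 : (1 - 1 / (k : ℝ)) ^ (6 * k) ≤ Real.exp (-6) := by
    rw [mul_comm, pow_mul]
    calc ((1 - 1 / (k : ℝ)) ^ k) ^ 6 ≤ (Real.exp (-1)) ^ 6 :=
          pow_le_pow_left₀ (pow_nonneg h0 _) h1 6
      _ = Real.exp (-6) := by rw [← Real.exp_nat_mul]; norm_num
  have h3 : Real.exp (-6) ≤ 1 / 400 := by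
    rw [Real.exp_neg, one_div]
    exact inv_anti₀ (by norm_num) wb_exp_six
  calc (k : ℝ) * (k - 1) / 2 * (1 - 1 / (k : ℝ)) ^ (6 * k)
      ≤ (k : ℝ) * (k - 1) / 2 * (1 / 400) := by
        apply mul_le_mul_of_nonneg_left (h2.trans h3)
        have : 0 ≤ (k : ℝ) - 1 := by linarith
        positivity
    _ ≤ (k : ℝ) ^ 2 / 800 := by nlinarith

theorem wb_triv (k A : ℕ) (α : Fin k → ℝ) : ‖W k A α‖ ≤ (A : ℝ) ^ 2 := by
  unfold W
  refine (norm_sum_le _ _).trans ?_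
  have h1 : ∀ x ∈ Icc 1 A, ‖∑ y ∈ Icc 1 A,
      ez (∑ j : Fin k, α j * ((x : ℝ) ^ ((j : ℕ) + 1) * (y : ℝ) ^ ((j : ℕ) + 1)))‖ ≤ (A : ℝ) := by
    intro x _
    refine (norm_sum_le _ _).trans ?_
    simp [ub_norm]
  refine (Finset.sum_le_sum h1).trans ?_
  simp [pow_two]

/-- the basic data: the exponent `κ`, the length `A` -/
theorem wb_A (N : ℕ) (hN : 2 ≤ N) :
    1 ≤ ⌊(N : ℝ) ^ ((1 : ℝ) / 3)⌋₊ ∧
    Real.log ⌊(N : ℝ) ^ ((1 : ℝ) / 3)⌋₊ ≤ Real.log N / 3 ∧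
    Real.log N / 3 - Real.log 2 ≤ Real.log ⌊(N : ℝ) ^ ((1 : ℝ) / 3)⌋₊ := by
  have hN' : (2 : ℝ) ≤ N := by exact_mod_cast hN
  have hx : (1 : ℝ) ≤ (N : ℝ) ^ ((1 : ℝ) / 3) := Real.one_le_rpow (by linarith) (by norm_num)
  have h1 : 1 ≤ ⌊(N : ℝ) ^ ((1 : ℝ) / 3)⌋₊ := by
    rw [Nat.le_floor_iff (by linarith)]; simpa using hx
  have h1' : (1 : ℝ) ≤ (⌊(N : ℝ) ^ ((1 : ℝ) / 3)⌋₊ : ℝ) := by exact_mod_cast h1
  have hlog : Real.log ((N : ℝ) ^ ((1 : ℝ) / 3)) = Real.log N / 3 := by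
    rw [Real.log_rpow (by linarith)]; ring
  refine ⟨h1, ?_, ?_⟩
  · rw [← hlog]
    exact Real.log_le_log (by linarith) (Nat.floor_le (by linarith))
  · have h2 : (N : ℝ) ^ ((1 : ℝ) / 3) ≤ 2 * (⌊(N : ℝ) ^ ((1 : ℝ) / 3)⌋₊ : ℝ) := by
      have := Nat.lt_floor_add_one ((N : ℝ) ^ ((1 : ℝ) / 3))
      linarith
    have h3 := Real.log_le_log (by linarith) h2
    rw [hlog, Real.log_mul (by norm_num) (by linarith)] at h3
    linarith

theorem wb_theta (k : ℕ) (t β : ℝ) (m : ℕ) (ht : 0 < t) (hm : 0 < (m : ℝ) + β) (j : Fin k) :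
    |al k t β m j| = t / (2 * Real.pi * (((j : ℕ) : ℝ) + 1) * ((m : ℝ) + β) ^ ((j : ℕ) + 1)) := by
  unfold al
  rw [abs_div, abs_mul, abs_pow, abs_neg, abs_one, one_pow, one_mul, abs_of_pos ht]
  congr 1
  apply abs_of_pos
  have := Real.pi_pos
  positivity

theorem wb_fac (k N : ℕ) (t β : ℝ) (m : ℕ) (hN : 2 ≤ N) (κ : ℝ)
    (htκ : t = Real.exp (κ * Real.log N)) (h1 : 1 / 2 ≤ κ) (hm1 : N < m)
    (hm2 : m ≤ 2 * N) (hβ0 : 0 ≤ β) (hβ1 : β ≤ 1) (s A : ℕ) (hs : 1 ≤ s) (hA : 1 ≤ A)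
    (hA1 : Real.log A ≤ Real.log N / 3) (hA2 : Real.log N / 3 - Real.log 2 ≤ Real.log A)
    (j : Fin k) :
    U (al k t β m j) (s * A ^ ((j : ℕ) + 1)) ≤
      9 * (s : ℝ) ^ 2 * (3840 * Real.pi * k * 12 ^ k * (1 + s + k * Real.log N)) *
        (A : ℝ) ^ (2 * ((j : ℕ) + 1)) *
        (if (6 / 5 * κ ≤ ((j : ℕ) : ℝ) + 1 ∧ ((j : ℕ) : ℝ) + 1 ≤ 12 / 5 * κ) then
          Real.exp (-(κ * Real.log N / 5)) else 1) := by
  have hN' : (2 : ℝ) ≤ N := by exact_mod_cast hN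
  have hN0 : (0 : ℝ) < N := by linarith
  set L := Real.log N with hL
  have hL0 : 0 < L := Real.log_pos (by linarith)
  have hNL : (N : ℝ) = Real.exp L := (Real.exp_log hN0).symm
  have hs' : (1 : ℝ) ≤ s := by exact_mod_cast hs
  have hA' : (1 : ℝ) ≤ A := by exact_mod_cast hA
  have hk1 : 1 ≤ k := by have := j.2; omega
  have hk' : (1 : ℝ) ≤ k := by exact_mod_cast hk1
  have hpi := Real.pi_gt_three
  have hpi4 := Real.pi_le_four
  set n : ℕ := (j : ℕ) + 1 with hn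
  have hnk : n ≤ k := by have := j.2; omega
  have hn1 : 1 ≤ n := by omega
  have hn' : (1 : ℝ) ≤ n := by exact_mod_cast hn1
  have hnk' : (n : ℝ) ≤ k := by exact_mod_cast hnk
  have hjn : ((j : ℕ) : ℝ) + 1 = (n : ℝ) := by rw [hn]; push_cast; ring
  rw [hjn]
  have hV : 1 ≤ s * A ^ n := Nat.one_le_iff_ne_zero.2 (by positivity)
  have hVr : ((s * A ^ n : ℕ) : ℝ) = (s : ℝ) * (A : ℝ) ^ n := by push_cast; ring
  have hV2 : ((s * A ^ n : ℕ) : ℝ) ^ 2 = (s : ℝ) ^ 2 * (A : ℝ) ^ (2 * n) := by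
    rw [hVr, mul_pow, ← pow_mul, mul_comm n 2]
  have hB : (1 : ℝ) ≤ 3840 * Real.pi * k * 12 ^ k * (1 + s + k * L) := by
    have e1 : (1 : ℝ) ≤ 3840 * Real.pi := by linarith
    have e2 : (1 : ℝ) ≤ 12 ^ k := one_le_pow₀ (by norm_num)
    have e3 : (1 : ℝ) ≤ 1 + s + k * L := by
      have : 0 ≤ (k : ℝ) * L := by positivity
      linarith
    exact one_le_mul_of_one_le_of_one_le (one_le_mul_of_one_le_of_one_le
      (one_le_mul_of_one_le_of_one_le e1 hk') e2) e3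
  split_ifs with hK
  · obtain ⟨hK1, hK2⟩ := hK
    have hm1L : 6 / 5 * κ * L ≤ n * L := mul_le_mul_of_nonneg_right hK1 hL0.le
    have hm2L : n * L ≤ 12 / 5 * κ * L := mul_le_mul_of_nonneg_right hK2 hL0.le
    have hpn : (1 : ℝ) ≤ 2 * Real.pi * n :=
      one_le_mul_of_one_le_of_one_le (by linarith) hn'
    have hpk : (1 : ℝ) ≤ 2 * Real.pi * k :=
      one_le_mul_of_one_le_of_one_le (by linarith) hk'
    have hκL : 0 < κ * L := by positivity
    have htp : 0 < t := by rw [htκ]; exact Real.exp_pos _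
    have hmb1 : (N : ℝ) ≤ (m : ℝ) + β := by
      have : (N : ℝ) ≤ m := by exact_mod_cast hm1.le
      linarith
    have hmb2 : (m : ℝ) + β ≤ 3 * N := by
      have : (m : ℝ) ≤ 2 * N := by exact_mod_cast hm2
      linarith
    have hmb0 : 0 < (m : ℝ) + β := by linarith
    have hθ := wb_theta k t β m htp hmb0 j
    rw [hjn, ← hn] at hθ
    set θ := al k t β m j with hθdef
    have hθpos : 0 < |θ| := by rw [hθ]; positivity
    have hNn : (N : ℝ) ^ n = Real.exp (n * L) := by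
      rw [hNL, ← Real.exp_nat_mul]
    have hq1 : (N : ℝ) ^ n ≤ ((m : ℝ) + β) ^ n := pow_le_pow_left₀ hN0.le hmb1 n
    have hq2 : ((m : ℝ) + β) ^ n ≤ 3 ^ n * (N : ℝ) ^ n := by
      rw [← mul_pow]; exact pow_le_pow_left₀ hmb0.le hmb2 n
    -- first bound
    have hden : Real.exp (n * L) ≤ 2 * Real.pi * (n : ℝ) * ((m : ℝ) + β) ^ n := by
      rw [← hNn]
      calc (N : ℝ) ^ n ≤ 1 * ((m : ℝ) + β) ^ n := by rw [one_mul]; exact hq1
        _ ≤ _ := mul_le_mul_of_nonneg_right hpn (by positivity)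
    have b1 : |θ| ≤ Real.exp (-(κ * L / 5)) := by
      rw [hθ]
      calc t / (2 * Real.pi * (n : ℝ) * ((m : ℝ) + β) ^ n)
          ≤ t / Real.exp (n * L) := div_le_div_of_nonneg_left htp.le (Real.exp_pos _) hden
        _ = Real.exp (κ * L - n * L) := by rw [htκ, Real.exp_sub]
        _ ≤ _ := by
          apply Real.exp_le_exp.2
          linarith
    have b1' : |θ| ≤ 1 / 2 := by
      have e1 : Real.exp (κ * L) ≤ (N : ℝ) ^ n := by
        rw [hNn]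
        apply Real.exp_le_exp.2
        linarith
      rw [hθ, div_le_iff₀ (by positivity)]
      have e2 : t ≤ ((m : ℝ) + β) ^ n := by rw [htκ]; exact e1.trans hq1
      have e3 : (1 : ℝ) ≤ 1 / 2 * (2 * Real.pi * n) := by
        have : (1 : ℝ) ≤ Real.pi * n := one_le_mul_of_one_le_of_one_le (by linarith) hn'
        linarith
      calc t ≤ 1 * ((m : ℝ) + β) ^ n := by rw [one_mul]; exact e2
        _ ≤ 1 / 2 * (2 * Real.pi * n) * ((m : ℝ) + β) ^ n :=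
          mul_le_mul_of_nonneg_right e3 (by positivity)
        _ = _ := by ring
    -- the length
    have hAe : (A : ℝ) = Real.exp (Real.log A) := (Real.exp_log (by linarith)).symm
    have hAlow : Real.exp (n * L / 3) ≤ 2 ^ n * (A : ℝ) ^ n := by
      have e1 : Real.exp (L / 3) ≤ 2 * A := by
        rw [← Real.exp_log (show (0 : ℝ) < 2 * A by linarith)]
        apply Real.exp_le_exp.2
        rw [Real.log_mul (by norm_num) (by linarith)]
        linarith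
      have e2 := pow_le_pow_left₀ (Real.exp_pos _).le e1 n
      rw [← Real.exp_nat_mul, mul_pow] at e2
      refine le_trans (le_of_eq ?_) e2
      congr 1; ring
    have h2n : (2 : ℝ) ^ n ≤ 2 ^ k := pow_le_pow_right₀ (by norm_num) hnk
    have h12n : (12 : ℝ) ^ n ≤ 12 ^ k := pow_le_pow_right₀ (by norm_num) hnk
    have hAn : (0 : ℝ) < (A : ℝ) ^ n := by positivity
    have b2 : 1 / ((s * A ^ n : ℕ) : ℝ) ≤ 2 * Real.pi * k * 12 ^ k * Real.exp (-(κ * L / 5)) := by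
      have e1 : 1 / ((s * A ^ n : ℕ) : ℝ) ≤ 1 / (A : ℝ) ^ n := by
        apply one_div_le_one_div_of_le hAn
        rw [hVr]
        exact le_mul_of_one_le_left hAn.le hs'
      have e2 : 1 / (A : ℝ) ^ n ≤ 2 ^ n * Real.exp (-(n * L / 3)) := by
        rw [Real.exp_neg, div_le_iff₀ hAn]
        have := Real.exp_pos (n * L / 3)
        rw [show 2 ^ n * (Real.exp (n * L / 3))⁻¹ * (A : ℝ) ^ n
          = (2 ^ n * (A : ℝ) ^ n) / Real.exp (n * L / 3) by field_simp]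
        rw [le_div_iff₀ this, one_mul]
        exact hAlow
      have e3 : Real.exp (-(n * L / 3)) ≤ Real.exp (-(κ * L / 5)) := by
        apply Real.exp_le_exp.2
        linarith
      have e4 : (2 : ℝ) ^ n ≤ 2 * Real.pi * k * 12 ^ k := by
        have e5 : (2 : ℝ) ^ k ≤ 12 ^ k := pow_le_pow_left₀ (by norm_num) (by norm_num) k
        have e6 : (1 : ℝ) ≤ 2 * Real.pi * k := hpk
        calc (2 : ℝ) ^ n ≤ 1 * 12 ^ k := by rw [one_mul]; exact h2n.trans e5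
          _ ≤ _ := mul_le_mul_of_nonneg_right e6 (by positivity)
      exact (e1.trans e2).trans (mul_le_mul e4 e3 (Real.exp_pos _).le (by positivity))
    have b3 : 1 / (|θ| * ((s * A ^ n : ℕ) : ℝ) ^ 2)
        ≤ 2 * Real.pi * k * 12 ^ k * Real.exp (-(κ * L / 5)) := by
      have e0 : (A : ℝ) ^ (2 * n) ≤ ((s * A ^ n : ℕ) : ℝ) ^ 2 := by
        rw [hV2]
        exact le_mul_of_one_le_left (by positivity) (one_le_pow₀ hs')
      have e1 : 1 / (|θ| * ((s * A ^ n : ℕ) : ℝ) ^ 2) ≤ 1 / (|θ| * (A : ℝ) ^ (2 * n)) :=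
        one_div_le_one_div_of_le (by positivity) (mul_le_mul_of_nonneg_left e0 hθpos.le)
      refine e1.trans ?_
      have e2 : 1 / (|θ| * (A : ℝ) ^ (2 * n))
          = (2 * Real.pi * (n : ℝ) * ((m : ℝ) + β) ^ n) / (t * (A : ℝ) ^ (2 * n)) := by
        rw [hθ]; field_simp
      rw [e2, div_le_iff₀ (by positivity)]
      have e3 : Real.exp (2 * n * L / 3) ≤ 4 ^ n * (A : ℝ) ^ (2 * n) := by
        have := mul_self_le_mul_self (Real.exp_pos _).le hAlow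
        rw [← Real.exp_add] at this
        refine le_trans (le_of_eq ?_) (this.trans (le_of_eq ?_))
        · congr 1; ring
        · rw [show (4 : ℝ) = 2 * 2 by norm_num, mul_pow, show 2 * n = n + n by ring, pow_add]
          ring
      have e4 : Real.exp (n * L) ≤ Real.exp (-(κ * L / 5)) * (t * Real.exp (2 * n * L / 3)) := by
        rw [htκ, ← Real.exp_add, ← Real.exp_add]
        apply Real.exp_le_exp.2
        linarith
      calc 2 * Real.pi * (n : ℝ) * ((m : ℝ) + β) ^ n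
          ≤ 2 * Real.pi * (k : ℝ) * (3 ^ n * Real.exp (n * L)) := by
            rw [← hNn]
            apply mul_le_mul _ hq2 (by positivity) (by positivity)
            apply mul_le_mul_of_nonneg_left hnk' (by positivity)
        _ ≤ 2 * Real.pi * (k : ℝ) * (3 ^ n * (Real.exp (-(κ * L / 5)) *
              (t * (4 ^ n * (A : ℝ) ^ (2 * n))))) := by
            apply mul_le_mul_of_nonneg_left _ (by positivity)
            apply mul_le_mul_of_nonneg_left _ (by positivity)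
            refine e4.trans ?_
            apply mul_le_mul_of_nonneg_left _ (Real.exp_pos _).le
            exact mul_le_mul_of_nonneg_left e3 htp.le
        _ = 2 * Real.pi * (k : ℝ) * 12 ^ n * Real.exp (-(κ * L / 5)) * (t * (A : ℝ) ^ (2 * n)) := by
            rw [show (12 : ℝ) = 3 * 4 by norm_num, mul_pow]; ring
        _ ≤ 2 * Real.pi * (k : ℝ) * 12 ^ k * Real.exp (-(κ * L / 5)) * (t * (A : ℝ) ^ (2 * n)) := by
            apply mul_le_mul_of_nonneg_right _ (by positivity)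
            apply mul_le_mul_of_nonneg_right _ (Real.exp_pos _).le
            exact mul_le_mul_of_nonneg_left h12n (by positivity)
    have b1'' : |θ| ≤ 2 * Real.pi * k * 12 ^ k * Real.exp (-(κ * L / 5)) := by
      refine b1.trans ?_
      have e6 : (1 : ℝ) ≤ 2 * Real.pi * k * 12 ^ k := by
        have e7 : (1 : ℝ) ≤ 2 * Real.pi * k := hpk
        exact one_le_mul_of_one_le_of_one_le e7 (one_le_pow₀ (by norm_num))
      exact le_mul_of_one_le_left (Real.exp_pos _).le e6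
    have hU := u_bd θ (s * A ^ n) hV (by intro h0; rw [h0, abs_zero] at hθpos; exact lt_irrefl _ hθpos) b1'
    have hlogV : Real.log ((s * A ^ n : ℕ) : ℝ) ≤ s + k * L := by
      rw [hVr, Real.log_mul (by linarith) (by positivity), Real.log_pow]
      have e1 : Real.log (s : ℝ) ≤ s := (Real.log_le_sub_one_of_pos (by linarith)).trans (by linarith)
      have e2 : (n : ℝ) * Real.log A ≤ k * L := by
        have e3 : 0 ≤ Real.log (A : ℝ) := Real.log_nonneg hA'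
        apply mul_le_mul hnk' (by linarith) e3 (by linarith)
      linarith
    have hlogV0 : 0 ≤ Real.log ((s * A ^ n : ℕ) : ℝ) := Real.log_nonneg (by exact_mod_cast hV)
    refine hU.trans ?_
    calc 640 * (1 + Real.log ((s * A ^ n : ℕ) : ℝ)) * (((s * A ^ n : ℕ) : ℝ) ^ 2 *
          (|θ| + 1 / ((s * A ^ n : ℕ) : ℝ) + 1 / (|θ| * ((s * A ^ n : ℕ) : ℝ) ^ 2)))
        ≤ 640 * (1 + (s + k * L)) * (((s : ℝ) ^ 2 * (A : ℝ) ^ (2 * n)) *
          (3 * (2 * Real.pi * k * 12 ^ k * Real.exp (-(κ * L / 5))))) := by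
          rw [← hV2]
          have hV20 : (0 : ℝ) ≤ ((s * A ^ n : ℕ) : ℝ) ^ 2 := by positivity
          apply mul_le_mul
          · linarith
          · apply mul_le_mul_of_nonneg_left _ hV20
            linarith
          · apply mul_nonneg hV20
            have : 0 ≤ 1 / ((s * A ^ n : ℕ) : ℝ) := by positivity
            have : 0 ≤ 1 / (|θ| * ((s * A ^ n : ℕ) : ℝ) ^ 2) := by positivity
            linarith
          · positivity
      _ = 1 * (s : ℝ) ^ 2 * (3840 * Real.pi * k * 12 ^ k * (1 + s + k * L)) *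
          (A : ℝ) ^ (2 * n) * Real.exp (-(κ * L / 5)) := by ring
      _ ≤ 9 * (s : ℝ) ^ 2 * (3840 * Real.pi * k * 12 ^ k * (1 + s + k * L)) *
          (A : ℝ) ^ (2 * n) * Real.exp (-(κ * L / 5)) := by
          have e9 : 0 ≤ (s : ℝ) ^ 2 * (3840 * Real.pi * k * 12 ^ k * (1 + s + k * L)) *
            (A : ℝ) ^ (2 * n) * Real.exp (-(κ * L / 5)) := by positivity
          linarith
  · refine (u_triv _ _ hV).trans ?_
    rw [hV2, mul_one]
    have e9 : 0 ≤ 9 * ((s : ℝ) ^ 2 * (A : ℝ) ^ (2 * n)) := by positivity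
    calc 9 * ((s : ℝ) ^ 2 * (A : ℝ) ^ (2 * n))
        = 1 * (9 * ((s : ℝ) ^ 2 * (A : ℝ) ^ (2 * n))) := by ring
      _ ≤ (3840 * Real.pi * k * 12 ^ k * (1 + s + k * L)) *
          (9 * ((s : ℝ) ^ 2 * (A : ℝ) ^ (2 * n))) := mul_le_mul_of_nonneg_right hB e9
      _ = _ := by ring

theorem wb_const (k : ℕ) (hk : 2 ≤ k) (s : ℝ) (hs1 : 0 < s) (hs : s ≤ 7 * (k : ℝ) ^ 2) (L : ℝ)
    (hL : 0 < L) :
    Real.log (9 * s ^ 2 * (3840 * Real.pi * k * 12 ^ k * (1 + s + k * L))) ≤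
      19 * k + Real.log (1 + L) := by
  have hk' : (2 : ℝ) ≤ k := by exact_mod_cast hk
  have hpi := Real.pi_pos
  have hpi4 : Real.pi ≤ 3.1416 := Real.pi_lt_d4.le
  have hek : (k : ℝ) ≤ Real.exp k := by linarith [Real.add_one_le_exp (k : ℝ)]
  have he3 : (12 : ℝ) ≤ Real.exp 3 := by
    have h1 := Real.exp_one_gt_d9
    have h2 : Real.exp 3 = (Real.exp 1) ^ 3 := by
      rw [← Real.exp_nat_mul]; norm_num
    rw [h2]
    calc (12 : ℝ) ≤ 2.7182818283 ^ 3 := by norm_num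
      _ ≤ _ := pow_le_pow_left₀ (by norm_num) h1.le 3
  have he18 : (42800000 : ℝ) ≤ Real.exp 18 := by
    have h1 := Real.exp_one_gt_d9
    have h2 : Real.exp 18 = (Real.exp 1) ^ 18 := by
      rw [← Real.exp_nat_mul]; norm_num
    rw [h2]
    calc (42800000 : ℝ) ≤ 2.7182818283 ^ 18 := by norm_num
      _ ≤ _ := pow_le_pow_left₀ (by norm_num) h1.le 18
  have e1 : 1 + s + k * L ≤ 8 * (k : ℝ) ^ 2 * (1 + L) := by
    have g1 : (k : ℝ) ≤ (k : ℝ) ^ 2 := by nlinarith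
    have g2 : (k : ℝ) * L ≤ (k : ℝ) ^ 2 * L := mul_le_mul_of_nonneg_right g1 hL.le
    have g3 : 0 ≤ (k : ℝ) ^ 2 * L := by positivity
    linarith
  have e2 : 9 * s ^ 2 ≤ 441 * (k : ℝ) ^ 4 := by
    have := mul_self_le_mul_self hs1.le hs
    nlinarith
  have e3 : (12 : ℝ) ^ k ≤ Real.exp (3 * k) := by
    have := pow_le_pow_left₀ (by norm_num) he3 k
    rw [← Real.exp_nat_mul] at this
    refine this.trans (le_of_eq ?_)
    congr 1; ring
  have e4 : (k : ℝ) ^ 7 ≤ Real.exp (7 * k) := by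
    have := pow_le_pow_left₀ (by linarith) hek 7
    rw [← Real.exp_nat_mul] at this
    refine this.trans (le_of_eq ?_)
    congr 1
  have e5 : (42800000 : ℝ) ≤ Real.exp (9 * k) := by
    refine he18.trans (Real.exp_le_exp.2 ?_)
    linarith
  have hpos : 0 < 9 * s ^ 2 * (3840 * Real.pi * k * 12 ^ k * (1 + s + k * L)) := by positivity
  have key : 9 * s ^ 2 * (3840 * Real.pi * k * 12 ^ k * (1 + s + k * L)) ≤
      Real.exp (19 * k) * (1 + L) := by
    have hfin : Real.exp (19 * (k : ℝ)) = Real.exp (9 * k) * Real.exp (7 * k) * Real.exp (3 * k) := by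
      rw [← Real.exp_add, ← Real.exp_add]; congr 1; ring
    rw [hfin]
    calc 9 * s ^ 2 * (3840 * Real.pi * k * 12 ^ k * (1 + s + k * L))
        ≤ 441 * (k : ℝ) ^ 4 * (3840 * 3.1416 * k * 12 ^ k * (8 * (k : ℝ) ^ 2 * (1 + L))) := by
          gcongr
      _ = 441 * 3840 * 3.1416 * 8 * (k : ℝ) ^ 7 * 12 ^ k * (1 + L) := by ring
      _ ≤ 42800000 * (k : ℝ) ^ 7 * 12 ^ k * (1 + L) := by
          gcongr
          norm_num
      _ ≤ Real.exp (9 * k) * Real.exp (7 * k) * Real.exp (3 * k) * (1 + L) := by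
          gcongr
  have := Real.log_le_log hpos key
  rw [Real.log_mul (Real.exp_pos _).ne' (by linarith), Real.log_exp] at this
  exact this

theorem wb_root (x y : ℝ) (n : ℕ) (hn : 1 ≤ n) (h : x ^ n ≤ Real.exp y) : x ≤ Real.exp (y / n) := by
  by_contra hcon
  push Not at hcon
  have h1 := pow_lt_pow_left₀ hcon (Real.exp_pos _).le (by omega : n ≠ 0)
  rw [← Real.exp_nat_mul] at h1
  have hn0 : (n : ℝ) ≠ 0 := by positivity
  rw [mul_div_cancel₀ _ hn0] at h1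
  linarith

theorem wb : ∃ C c : ℝ, 0 < C ∧ 0 < c ∧ ∀ (k N : ℕ) (t β : ℝ) (m : ℕ), 2 ≤ k → 2 ≤ N →
    (N : ℝ) ^ (((k : ℝ) - 1) / 3) < t → t ≤ (N : ℝ) ^ ((k : ℝ) / 3) → (N : ℝ) ≤ t ^ 2 →
    N < m → m ≤ 2 * N → 0 ≤ β → β ≤ 1 →
    ‖W k ⌊(N : ℝ) ^ ((1 : ℝ) / 3)⌋₊ (al k t β m)‖ ≤
      (⌊(N : ℝ) ^ ((1 : ℝ) / 3)⌋₊ : ℝ) ^ 2 * Real.exp (C * (k : ℝ) ^ 3) * (1 + Real.log N) *
        (N : ℝ) ^ (-(c / (k : ℝ) ^ 2)) := by
  refine ⟨15, 1 / 141120, by norm_num, by norm_num, ?_⟩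
  intro k N t β m hk hN ht1 ht2 ht3 hm1 hm2 hβ0 hβ1
  obtain ⟨hA, hA1, hA2⟩ := wb_A N hN
  set A : ℕ := ⌊(N : ℝ) ^ ((1 : ℝ) / 3)⌋₊ with hAdef
  have hN' : (2 : ℝ) ≤ N := by exact_mod_cast hN
  have hN0 : (0 : ℝ) < N := by linarith
  have hk' : (2 : ℝ) ≤ k := by exact_mod_cast hk
  have hA' : (1 : ℝ) ≤ A := by exact_mod_cast hA
  set L := Real.log N with hL
  have hL0 : 0 < L := Real.log_pos (by linarith)
  have hNL : (N : ℝ) = Real.exp L := (Real.exp_log hN0).symm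
  have htp : 0 < t := lt_trans (Real.rpow_pos_of_pos hN0 _) ht1
  -- the exponent
  set κ := Real.log t / L with hκ
  have hκL : κ * L = Real.log t := by rw [hκ]; field_simp
  have htκ : t = Real.exp (κ * L) := by rw [hκL, Real.exp_log htp]
  have hκ1 : ((k : ℝ) - 1) / 3 < κ := by
    have := Real.log_lt_log (Real.rpow_pos_of_pos hN0 _) ht1
    rw [Real.log_rpow hN0, ← hL] at this
    rw [hκ, lt_div_iff₀ hL0]
    exact this
  have hκ2 : κ ≤ (k : ℝ) / 3 := by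
    have := Real.log_le_log htp ht2
    rw [Real.log_rpow hN0, ← hL] at this
    rw [hκ, div_le_iff₀ hL0]
    exact this
  have hκ3 : 1 / 2 ≤ κ := by
    have := Real.log_le_log hN0 ht3
    rw [Real.log_pow, ← hL] at this
    rw [hκ, le_div_iff₀ hL0]
    push_cast at this
    linarith
  have hκ4 : (k : ℝ) / 6 ≤ κ := by
    by_cases h3 : k = 2
    · subst h3; push_cast; linarith
    · have : (3 : ℝ) ≤ k := by
        have : 3 ≤ k := by omega
        exact_mod_cast this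
      linarith
  -- parameters
  set l : ℕ := 6 * k + 1 with hl
  set s : ℕ := k * l with hs
  have hs1 : 1 ≤ s := Nat.one_le_iff_ne_zero.2 (by positivity)
  have hsr : (s : ℝ) = k * (6 * k + 1) := by rw [hs, hl]; push_cast; ring
  have hlr : (l : ℝ) = 6 * k + 1 := by rw [hl]; push_cast; ring
  have hs7 : (s : ℝ) ≤ 7 * (k : ℝ) ^ 2 := by rw [hsr]; nlinarith
  have hs6 : 6 * (k : ℝ) ^ 2 ≤ s := by rw [hsr]; nlinarith
  have hs0 : (0 : ℝ) < s := by exact_mod_cast hs1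
  have hdbl := dbl k s A (by omega) hs1 hA (al k t β m)
  have hJ := VM.vmvt k l A hk (by omega) hA
  set a := Real.log (A : ℝ) with ha
  have ha0 : 0 ≤ a := Real.log_nonneg hA'
  have hAe : (A : ℝ) = Real.exp a := (Real.exp_log (by linarith)).symm
  set lam := VM.lamb k l with hlam
  set B : ℝ := 9 * (s : ℝ) ^ 2 * (3840 * Real.pi * k * 12 ^ k * (1 + s + k * L)) with hB
  have hBpos : 0 < B := by
    rw [hB]
    have := Real.pi_pos
    positivity
  set b := Real.log B with hb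
  have hBe : B = Real.exp b := (Real.exp_log hBpos).symm
  have hbb : b ≤ 19 * k + Real.log (1 + L) := wb_const k hk s hs0 hs7 L hL0
  set ev : Fin k → ℝ := fun j =>
    if (6 / 5 * κ ≤ ((j : ℕ) : ℝ) + 1 ∧ ((j : ℕ) : ℝ) + 1 ≤ 12 / 5 * κ) then 1 else 0 with hev
  have hfac : ∀ j : Fin k, U (al k t β m j) (s * A ^ ((j : ℕ) + 1)) ≤
      Real.exp (b + 2 * (((j : ℕ) : ℝ) + 1) * a - κ * L / 5 * ev j) := by
    intro j
    refine (wb_fac k N t β m hN κ htκ hκ3 hm1 hm2 hβ0 hβ1 s A hs1 hA hA1 hA2 j).trans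
      (le_of_eq ?_)
    rw [← hL, ← hB, hBe, hAe, ← Real.exp_nat_mul, hev]
    simp only
    split_ifs with h
    · rw [← Real.exp_add, ← Real.exp_add]
      congr 1
      push_cast
      ring
    · rw [mul_one, ← Real.exp_add]
      congr 1
      push_cast
      ring
  have hU0 : ∀ j : Fin k, 0 ≤ U (al k t β m j) (s * A ^ ((j : ℕ) + 1)) := by
    intro j
    unfold U
    exact Finset.sum_nonneg fun _ _ => norm_nonneg _
  have hprod : ∏ j : Fin k, U (al k t β m j) (s * A ^ ((j : ℕ) + 1)) ≤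
      Real.exp (∑ j : Fin k, (b + 2 * (((j : ℕ) : ℝ) + 1) * a - κ * L / 5 * ev j)) := by
    rw [Real.exp_sum]
    exact Finset.prod_le_prod (fun j _ => hU0 j) (fun j _ => hfac j)
  have hsum : ∑ j : Fin k, (b + 2 * (((j : ℕ) : ℝ) + 1) * a - κ * L / 5 * ev j) ≤
      k * b + (k : ℝ) * (k + 1) * a - 2 / 25 * κ ^ 2 * L := by
    rw [Finset.sum_sub_distrib, Finset.sum_add_distrib, Finset.sum_const, Finset.card_univ,
      Fintype.card_fin, nsmul_eq_mul, ← Finset.sum_mul, ← Finset.mul_sum, ← Finset.mul_sum]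
    have e1 : ∑ j : Fin k, (((j : ℕ) : ℝ) + 1) = (k : ℝ) * (k + 1) / 2 := by
      rw [Fin.sum_univ_eq_sum_range (fun j => (j : ℝ) + 1) k]
      clear * -
      induction k with
      | zero => simp
      | succ n ih => rw [Finset.sum_range_succ, ih]; push_cast; ring
    have e2 : 2 / 5 * κ ≤ ∑ j : Fin k, ev j := by
      refine (wb_card κ k hκ3 hκ2).trans (le_of_eq ?_)
      rw [hev, Finset.sum_ite, Finset.sum_const_zero, add_zero, Finset.sum_const, nsmul_eq_mul,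
        mul_one]
    rw [e1]
    have e3 : κ * L / 5 * (2 / 5 * κ) ≤ κ * L / 5 * ∑ j : Fin k, ev j :=
      mul_le_mul_of_nonneg_left e2 (by positivity)
    linarith
  have hJ2 : (VM.J k s A : ℝ) ^ 2 ≤
      Real.exp (80 * (k : ℝ) ^ 5 * (l : ℝ) ^ 2 * Real.log 2 + 2 * lam * a) := by
    have e1 : (VM.J k s A : ℝ) ≤
        Real.exp (40 * (k : ℝ) ^ 5 * (l : ℝ) ^ 2 * Real.log 2 + lam * a) := by
      refine hJ.trans (le_of_eq ?_)
      rw [Real.exp_add]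
      congr 1
      · rw [← Real.rpow_natCast, Real.rpow_def_of_pos (by norm_num)]
        congr 1
        push_cast
        ring
      · rw [Real.rpow_def_of_pos (by linarith), mul_comm]
    have e2 := pow_le_pow_left₀ (Nat.cast_nonneg _) e1 2
    rw [← Real.exp_nat_mul] at e2
    refine e2.trans (le_of_eq ?_)
    congr 1
    push_cast
    ring
  have hA8 : (A : ℝ) ^ (8 * s ^ 2 - 4 * s) = Real.exp ((8 * (s : ℝ) ^ 2 - 4 * s) * a) := by
    rw [hAe, ← Real.exp_nat_mul]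
    congr 1
    rw [Nat.cast_sub (by nlinarith)]
    push_cast
    ring
  set δ : ℝ := (k : ℝ) * (k - 1) / 2 * (1 - 1 / (k : ℝ)) ^ (6 * k) with hδ
  have hδ1 : δ ≤ (k : ℝ) ^ 2 / 800 := wb_delta k hk
  have hlam2 : 2 * lam = 4 * s - (k : ℝ) * (k + 1) + 2 * δ := by
    rw [hlam, VM.lamb, hδ, hsr, hlr]
    have : l - 1 = 6 * k := by omega
    rw [this]
    ring
  have hW : ‖W k A (al k t β m)‖ ^ (4 * s ^ 2) ≤
      Real.exp (8 * (s : ℝ) ^ 2 * a + 80 * (k : ℝ) ^ 5 * (l : ℝ) ^ 2 * Real.log 2 + k * b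
        - (k : ℝ) ^ 2 / 720 * L) := by
    refine hdbl.trans ?_
    have e1 : (A : ℝ) ^ (8 * s ^ 2 - 4 * s) * (VM.J k s A : ℝ) ^ 2 *
        ∏ j : Fin k, U (al k t β m j) (s * A ^ ((j : ℕ) + 1)) ≤
        Real.exp ((8 * (s : ℝ) ^ 2 - 4 * s) * a) *
          Real.exp (80 * (k : ℝ) ^ 5 * (l : ℝ) ^ 2 * Real.log 2 + 2 * lam * a) *
          Real.exp (k * b + (k : ℝ) * (k + 1) * a - 2 / 25 * κ ^ 2 * L) := by
      rw [hA8]
      refine mul_le_mul (mul_le_mul_of_nonneg_left hJ2 (Real.exp_pos _).le)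
        (hprod.trans (Real.exp_le_exp.2 hsum)) (Finset.prod_nonneg fun j _ => hU0 j) (by positivity)
    refine e1.trans ?_
    rw [← Real.exp_add, ← Real.exp_add]
    apply Real.exp_le_exp.2
    rw [hlam2]
    have e2 : 2 * δ * a ≤ (k : ℝ) ^ 2 / 1200 * L := by
      have e3 : 2 * δ * a ≤ 2 * ((k : ℝ) ^ 2 / 800) * a :=
        mul_le_mul_of_nonneg_right (by linarith) ha0
      have e4 : 2 * ((k : ℝ) ^ 2 / 800) * a ≤ 2 * ((k : ℝ) ^ 2 / 800) * (L / 3) :=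
        mul_le_mul_of_nonneg_left hA1 (by positivity)
      linarith
    have e5 : (k : ℝ) ^ 2 / 450 * L ≤ 2 / 25 * κ ^ 2 * L := by
      apply mul_le_mul_of_nonneg_right _ hL0.le
      have := mul_self_le_mul_self (by positivity) hκ4
      linarith
    linarith
  have hn1 : 1 ≤ 4 * s ^ 2 := by
    have : 0 < s ^ 2 := by positivity
    omega
  have hroot := wb_root _ _ _ hn1 hW
  refine hroot.trans ?_
  have hfinal : (A : ℝ) ^ 2 * Real.exp (15 * (k : ℝ) ^ 3) * (1 + L) *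
      (N : ℝ) ^ (-(1 / 141120 / (k : ℝ) ^ 2)) =
      Real.exp (2 * a + 15 * (k : ℝ) ^ 3 + Real.log (1 + L) - 1 / 141120 / (k : ℝ) ^ 2 * L) := by
    rw [sub_eq_add_neg, Real.exp_add, Real.exp_add, Real.exp_add, Real.exp_log (by linarith),
      Real.rpow_def_of_pos hN0, hAe, ← Real.exp_nat_mul, ← hL]
    congr 2
    ring
  rw [hfinal]
  apply Real.exp_le_exp.2
  have hs2 : (0 : ℝ) < 4 * (s : ℝ) ^ 2 := by positivity
  have hcast : ((4 * s ^ 2 : ℕ) : ℝ) = 4 * (s : ℝ) ^ 2 := by push_cast; ring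
  rw [hcast, div_le_iff₀ hs2]
  have hlog2 : Real.log 2 ≤ 0.7 := Real.log_two_lt_d9.le.trans (by norm_num)
  have hlogL : 0 ≤ Real.log (1 + L) := Real.log_nonneg (by linarith)
  have f1 : 80 * (k : ℝ) ^ 5 * (l : ℝ) ^ 2 * Real.log 2 ≤ 14 * (k : ℝ) ^ 3 * (4 * (s : ℝ) ^ 2) := by
    have : 14 * (k : ℝ) ^ 3 * (4 * (s : ℝ) ^ 2) = 80 * (k : ℝ) ^ 5 * (l : ℝ) ^ 2 * 0.7 := by
      rw [hsr, hlr]; ring
    rw [this]
    exact mul_le_mul_of_nonneg_left hlog2 (by positivity)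
  have hs2k : 144 * (k : ℝ) ^ 4 ≤ 4 * (s : ℝ) ^ 2 := by
    have := mul_self_le_mul_self (by positivity) hs6
    linarith
  have f2 : k * b ≤ ((k : ℝ) ^ 3 + Real.log (1 + L)) * (4 * (s : ℝ) ^ 2) := by
    have g1 : (k : ℝ) * b ≤ k * (19 * k + Real.log (1 + L)) :=
      mul_le_mul_of_nonneg_left hbb (by linarith)
    have g2 : k * (19 * k + Real.log (1 + L)) ≤ ((k : ℝ) ^ 3 + Real.log (1 + L)) * (144 * (k : ℝ) ^ 4) := by
      have g3 : (1 : ℝ) ≤ (k : ℝ) ^ 3 := one_le_pow₀ (by linarith)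
      have g4 : 19 * (k : ℝ) ^ 2 ≤ (k : ℝ) ^ 3 * (144 * (k : ℝ) ^ 4) := by
        have g5 : (k : ℝ) ^ 2 ≤ (k : ℝ) ^ 7 := pow_le_pow_right₀ (by linarith) (by norm_num)
        have g6 : (0 : ℝ) ≤ (k : ℝ) ^ 7 := by positivity
        calc 19 * (k : ℝ) ^ 2 ≤ 144 * (k : ℝ) ^ 7 := by linarith
          _ = _ := by ring
      have g7 : (k : ℝ) ≤ 144 * (k : ℝ) ^ 4 := by
        have g8 : (k : ℝ) ^ 1 ≤ (k : ℝ) ^ 4 := pow_le_pow_right₀ (by linarith) (by norm_num)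
        have g9 : (0 : ℝ) ≤ (k : ℝ) ^ 4 := by positivity
        rw [pow_one] at g8
        linarith
      have g10 := mul_le_mul_of_nonneg_right g7 hlogL
      linarith
    refine g1.trans (g2.trans ?_)
    exact mul_le_mul_of_nonneg_left hs2k (by positivity)
  have f3 : 1 / 141120 / (k : ℝ) ^ 2 * L * (4 * (s : ℝ) ^ 2) ≤ (k : ℝ) ^ 2 / 720 * L := by
    have g1 : (s : ℝ) ^ 2 ≤ 49 * (k : ℝ) ^ 4 := by
      have := mul_self_le_mul_self hs0.le hs7
      linarith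
    have g2 : 1 / 141120 / (k : ℝ) ^ 2 * L * (4 * (s : ℝ) ^ 2) ≤
        1 / 141120 / (k : ℝ) ^ 2 * L * (4 * (49 * (k : ℝ) ^ 4)) := by
      apply mul_le_mul_of_nonneg_left _ (by positivity)
      linarith
    refine g2.trans (le_of_eq ?_)
    field_simp
    norm_num
  have f4 : (2 * a + 15 * (k : ℝ) ^ 3 + Real.log (1 + L) - 1 / 141120 / (k : ℝ) ^ 2 * L) *
      (4 * (s : ℝ) ^ 2) = 8 * (s : ℝ) ^ 2 * a + 14 * (k : ℝ) ^ 3 * (4 * (s : ℝ) ^ 2) +
      ((k : ℝ) ^ 3 + Real.log (1 + L)) * (4 * (s : ℝ) ^ 2) -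
      1 / 141120 / (k : ℝ) ^ 2 * L * (4 * (s : ℝ) ^ 2) := by ring
  rw [f4]
  linarith

end Pool.Agent.H43.ZS
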