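import Pool.Agent.H43.ZS.WB
import Pool.Agent.H43.ZS.Shift

/-!
# [H43 ZS FIN] Vinogradov's bound for the sums of `(m+β)^(-it)`

PROOF. `L = log t` large, `log N >= L^0.9`, `N <= t^2`; if `N' <= N` the sum is `0`.
`κ = L/log N ∈ [1/2, L^0.1]`, `k = ⌈3κ⌉₊ >= 2`, so `(k-1)/3 < κ <= k/3`, i.e.
`N^((k-1)/3) < t <= N^(k/3)`, and `k <= 3κ+1 <= 5κ <= 5 L^0.1`. `A = ⌊N^(1/3)⌋₊ >= 1`,
`2A^2 <= 2N^(2/3) <= N` (`N >= 8`). `shift` and `wb` (for `m ∈ (N, 2N]`):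
`‖S‖ <= N exp(C k^3)(1+log N) N^(-c/k^2) + 2 N^(2/3) + N t (N^(-1/3))^(k+1)`, and
`t N^(-(k+1)/3) <= N^(-1/3)`. Here `C k^3 <= 125 C L^0.3`, `(c/k^2) log N >= (c/25) L^(-0.2) L^0.9`
`= (c/25) L^0.7`, `1 + log N <= 1 + 2L`, `N^(-1/3) <= exp(-L^0.9/3)`. Each of the three terms is
`<= (N/3) exp(-sqrt L)` for `L` large (`0.7 > 0.5`, `0.7 > 0.3`).
-/

namespace Pool.Agent.H43.ZS

open Finset

/-- the final comparison of growth rates, in the variable `u = (log t)^0.1` -/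
theorem fin_ev (C c : ℝ) (hC : 0 < C) (hc : 0 < c) : ∃ u0 : ℝ, 6 ≤ u0 ∧ ∀ u : ℝ, u0 ≤ u →
    Real.exp (125 * C * u ^ 3 - c / 25 * u ^ 7) * (1 + 2 * u ^ 10) + 3 * Real.exp (-(u ^ 9) / 3) ≤
      Real.exp (-u ^ 5) := by
  have h10 := Real.tendsto_pow_mul_exp_neg_atTop_nhds_zero 10
  have h0 := Real.tendsto_pow_mul_exp_neg_atTop_nhds_zero 0
  have hsum : Filter.Tendsto (fun u : ℝ => 4 * (u ^ 0 * Real.exp (-u)) +
      2 * (u ^ 10 * Real.exp (-u))) Filter.atTop (nhds 0) := by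
    have := (h0.const_mul 4).add (h10.const_mul 2)
    simpa using this
  have hev : ∀ᶠ u : ℝ in Filter.atTop, 4 * (u ^ 0 * Real.exp (-u)) +
      2 * (u ^ 10 * Real.exp (-u)) < 1 := hsum.eventually (gt_mem_nhds one_pos)
  obtain ⟨u1, hu1⟩ := Filter.eventually_atTop.1 hev
  refine ⟨max 6 (max u1 (25 * (2 + 125 * C) / c)), le_max_left _ _, ?_⟩
  intro u hu
  have h6 : 6 ≤ u := le_trans (le_max_left _ _) hu
  have hu1' : u1 ≤ u := le_trans (le_trans (le_max_left _ _) (le_max_right _ _)) hu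
  have hc' : 25 * (2 + 125 * C) / c ≤ u :=
    le_trans (le_trans (le_max_right _ _) (le_max_right _ _)) hu
  have hu := hu1 u hu1'
  have h1 : 1 ≤ u := by linarith
  have hc2 : 2 + 125 * C ≤ c / 25 * u := by
    rw [div_le_iff₀ hc] at hc'
    nlinarith
  have p6 : 0 < u ^ 6 := by positivity
  have p56 : u ^ 5 ≤ u ^ 6 := pow_le_pow_right₀ h1 (by norm_num)
  have p36 : u ^ 3 ≤ u ^ 6 := pow_le_pow_right₀ h1 (by norm_num)
  have p16 : u ≤ u ^ 6 := by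
    calc u = u ^ 1 := (pow_one u).symm
      _ ≤ u ^ 6 := pow_le_pow_right₀ h1 (by norm_num)
  have p58 : u ^ 5 ≤ u ^ 8 := pow_le_pow_right₀ h1 (by norm_num)
  have p18 : u ≤ u ^ 8 := by
    calc u = u ^ 1 := (pow_one u).symm
      _ ≤ u ^ 8 := pow_le_pow_right₀ h1 (by norm_num)
  have p8 : 0 < u ^ 8 := by positivity
  have e1 : 125 * C * u ^ 3 - c / 25 * u ^ 7 ≤ -u ^ 5 + -u := by
    have a1 : c / 25 * u ^ 7 = (c / 25 * u) * u ^ 6 := by ring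
    have a2 : (2 + 125 * C) * u ^ 6 ≤ (c / 25 * u) * u ^ 6 :=
      mul_le_mul_of_nonneg_right hc2 p6.le
    have a3 : 125 * C * u ^ 3 ≤ 125 * C * u ^ 6 :=
      mul_le_mul_of_nonneg_left p36 (by positivity)
    nlinarith
  have e2 : -(u ^ 9) / 3 ≤ -u ^ 5 + -u := by
    have a1 : u ^ 9 = u * u ^ 8 := by ring
    nlinarith
  have k1 := Real.exp_le_exp.2 e1
  have k2 := Real.exp_le_exp.2 e2
  rw [Real.exp_add] at k1 k2
  have pos5 := Real.exp_pos (-u ^ 5)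
  have pp : 0 ≤ 1 + 2 * u ^ 10 := by positivity
  calc Real.exp (125 * C * u ^ 3 - c / 25 * u ^ 7) * (1 + 2 * u ^ 10) +
        3 * Real.exp (-(u ^ 9) / 3)
      ≤ (Real.exp (-u ^ 5) * Real.exp (-u)) * (1 + 2 * u ^ 10) +
        3 * (Real.exp (-u ^ 5) * Real.exp (-u)) := by
        gcongr
    _ = Real.exp (-u ^ 5) * (4 * (u ^ 0 * Real.exp (-u)) + 2 * (u ^ 10 * Real.exp (-u))) := by
        ring
    _ ≤ Real.exp (-u ^ 5) * 1 := by
        gcongr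
    _ = Real.exp (-u ^ 5) := mul_one _

theorem zsum : ∃ t0 : ℝ, 2 ≤ t0 ∧ ∀ t : ℝ, t0 ≤ t → ∀ N N' : ℕ,
    Real.exp ((Real.log t) ^ (0.9 : ℝ)) ≤ N → (N : ℝ) ≤ t ^ 2 → N' ≤ 2 * N →
    ∀ β : ℝ, 0 ≤ β → β ≤ 1 →
    ‖∑ m ∈ Ioc N N', Complex.exp (-(t * Real.log ((m : ℝ) + β) : ℝ) * Complex.I)‖ ≤
      N * Real.exp (-Real.sqrt (Real.log t)) := by
  obtain ⟨C, c, hC, hc, hwb⟩ := wb
  obtain ⟨u0, hu06, hu0⟩ := fin_ev C c hC hc
  refine ⟨Real.exp (u0 ^ 10), ?_, ?_⟩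
  · have h1 : (1 : ℝ) ≤ u0 ^ 10 := one_le_pow₀ (by linarith)
    have := Real.add_one_le_exp (u0 ^ 10)
    linarith
  intro t ht N N' hN1 hN2 hN' β hβ0 hβ1
  have htpos : 0 < t := lt_of_lt_of_le (Real.exp_pos _) ht
  set L := Real.log t with hL
  have hL10 : u0 ^ 10 ≤ L := (Real.le_log_iff_exp_le htpos).2 ht
  have hLpos : 0 < L := lt_of_lt_of_le (by positivity) hL10
  have htL : t = Real.exp L := (Real.exp_log htpos).symm
  -- the variable u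
  set u : ℝ := L ^ (0.1 : ℝ) with hu
  have hupos : 0 < u := Real.rpow_pos_of_pos hLpos _
  have hupow : ∀ n : ℕ, u ^ n = L ^ ((n : ℝ) / 10) := by
    intro n
    rw [hu, ← Real.rpow_natCast, ← Real.rpow_mul hLpos.le]
    congr 1; norm_num; ring
  have hu10 : u ^ 10 = L := by
    rw [hupow 10]; norm_num
  have hu9 : u ^ 9 = L ^ (0.9 : ℝ) := by
    rw [hupow 9]; norm_num
  have hu5 : u ^ 5 = Real.sqrt L := by
    rw [hupow 5, Real.sqrt_eq_rpow]; norm_num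
  have huu0 : u0 ≤ u := by
    by_contra hcon
    push Not at hcon
    have : u ^ 10 < u0 ^ 10 := pow_lt_pow_left₀ hcon hupos.le (by norm_num)
    linarith
  have hu6 : 6 ≤ u := le_trans hu06 huu0
  have hfin := hu0 u huu0
  -- N
  rw [← hu9] at hN1
  have hN1' : u ^ 9 + 1 ≤ N := le_trans (Real.add_one_le_exp _) hN1
  have hu9ge : (8 : ℝ) ≤ u ^ 9 := by
    calc (8 : ℝ) ≤ 6 ^ 9 := by norm_num
      _ ≤ u ^ 9 := pow_le_pow_left₀ (by norm_num) hu6 9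
  have hN8 : (8 : ℝ) ≤ N := by linarith
  have hNpos : (0 : ℝ) < N := by linarith
  set ℓ := Real.log N with hℓ
  have hℓ1 : u ^ 9 ≤ ℓ := (Real.le_log_iff_exp_le hNpos).2 hN1
  have hℓpos : 0 < ℓ := by linarith
  have hℓ2 : ℓ ≤ 2 * L := by
    have := Real.log_le_log hNpos hN2
    rw [Real.log_pow] at this
    simpa using this
  have hNℓ : (N : ℝ) = Real.exp ℓ := (Real.exp_log hNpos).symm
  have hNrpow : ∀ a : ℝ, (N : ℝ) ^ a = Real.exp (a * ℓ) := by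
    intro a
    rw [Real.rpow_def_of_pos hNpos]
    congr 1; ring
  -- κ
  set κ := L / ℓ with hκ
  have hκℓ : κ * ℓ = L := by rw [hκ]; field_simp
  have hκhalf : 1 / 2 ≤ κ := by
    rw [hκ, le_div_iff₀ hℓpos]; linarith
  have hκu : κ ≤ u := by
    rw [hκ, div_le_iff₀ hℓpos]
    calc L = u * u ^ 9 := by rw [← hu10]; ring
      _ ≤ u * ℓ := by gcongr
  set k := ⌈3 * κ⌉₊ with hk
  have hk1 : 3 * κ ≤ k := Nat.le_ceil _
  have hk2 : (k : ℝ) < 3 * κ + 1 := Nat.ceil_lt_add_one (by linarith)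
  have hkge2 : 2 ≤ k := by
    have : (1 : ℝ) < k := by linarith
    exact_mod_cast this
  have hk5 : (k : ℝ) ≤ 5 * u := by linarith
  have hkpos : (0 : ℝ) < k := by linarith
  -- A
  set A := ⌊(N : ℝ) ^ ((1 : ℝ) / 3)⌋₊ with hA
  have hN13 : 2 ≤ (N : ℝ) ^ ((1 : ℝ) / 3) := by
    calc (2 : ℝ) = (8 : ℝ) ^ ((1 : ℝ) / 3) := by
          rw [show (8 : ℝ) = 2 ^ (3 : ℝ) by norm_num, ← Real.rpow_mul (by norm_num)]
          norm_num
      _ ≤ (N : ℝ) ^ ((1 : ℝ) / 3) := Real.rpow_le_rpow (by norm_num) hN8 (by norm_num)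
  have hA1 : 1 ≤ A := by
    rw [hA]; exact Nat.le_floor (by push_cast; linarith)
  have hAle : (A : ℝ) ≤ (N : ℝ) ^ ((1 : ℝ) / 3) := Nat.floor_le (by linarith)
  have hApos : (0 : ℝ) < A := by exact_mod_cast hA1
  have hA2le : (A : ℝ) ^ 2 ≤ N * Real.exp (-ℓ / 3) := by
    calc (A : ℝ) ^ 2 ≤ ((N : ℝ) ^ ((1 : ℝ) / 3)) ^ 2 := by gcongr
      _ = N * Real.exp (-ℓ / 3) := by
          rw [hNrpow, ← Real.exp_nat_mul]
          conv_rhs => rw [hNℓ]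
          rw [← Real.exp_add]
          congr 1; push_cast; ring
  have hN13' : (N : ℝ) * Real.exp (-ℓ / 3) * 2 ≤ N := by
    have h2 : Real.exp (-ℓ / 3) * (N : ℝ) ^ ((1 : ℝ) / 3) = 1 := by
      rw [hNrpow, ← Real.exp_add, show -ℓ / 3 + 1 / 3 * ℓ = 0 by ring, Real.exp_zero]
    have h3 : Real.exp (-ℓ / 3) * 2 ≤ 1 := by
      rw [← h2]
      gcongr
    calc (N : ℝ) * Real.exp (-ℓ / 3) * 2 = N * (Real.exp (-ℓ / 3) * 2) := by ring
      _ ≤ N * 1 := by gcongr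
      _ = N := mul_one _
  have h2A : 2 * A ^ 2 ≤ N := by
    have : (2 : ℝ) * (A : ℝ) ^ 2 ≤ N := by linarith
    exact_mod_cast this
  have hsh := shift t β htpos.le hβ0 N N' A k (by omega) hA1 h2A hN'
  refine le_trans hsh ?_
  -- the W part
  have hlow : (N : ℝ) ^ (((k : ℝ) - 1) / 3) < t := by
    rw [hNrpow, htL]
    apply Real.exp_lt_exp.2
    rw [← hκℓ]
    have : ((k : ℝ) - 1) / 3 < κ := by linarith
    exact mul_lt_mul_of_pos_right this hℓpos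
  have hup : t ≤ (N : ℝ) ^ ((k : ℝ) / 3) := by
    rw [hNrpow, htL]
    apply Real.exp_le_exp.2
    rw [← hκℓ]
    have : κ ≤ (k : ℝ) / 3 := by linarith
    exact mul_le_mul_of_nonneg_right this hℓpos.le
  have hN2nat : 2 ≤ N := by
    have : (2 : ℝ) ≤ N := by linarith
    exact_mod_cast this
  set B := Real.exp (C * (k : ℝ) ^ 3) * (1 + Real.log N) * (N : ℝ) ^ (-(c / (k : ℝ) ^ 2)) with hB
  have hWle : ∀ m ∈ Ioc N N', ‖W k A (al k t β m)‖ ≤ (A : ℝ) ^ 2 * B := by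
    intro m hm
    rw [mem_Ioc] at hm
    have := hwb k N t β m hkge2 hN2nat hlow hup hN2 hm.1 (le_trans hm.2 hN') hβ0 hβ1
    rw [hB]
    calc _ ≤ _ := this
      _ = _ := by ring
  have hBnn : 0 ≤ B := by
    rw [hB]
    have : 0 ≤ 1 + Real.log N := by rw [← hℓ]; linarith
    positivity
  have hcard : ((Ioc N N').card : ℝ) ≤ N := by
    rw [Nat.card_Ioc]
    have : N' - N ≤ N := by omega
    exact_mod_cast this
  have hsumW : (1 / (A : ℝ) ^ 2) * ∑ m ∈ Ioc N N', ‖W k A (al k t β m)‖ ≤ N * B := by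
    have h1 := Finset.sum_le_sum hWle
    rw [Finset.sum_const, nsmul_eq_mul] at h1
    calc (1 / (A : ℝ) ^ 2) * ∑ m ∈ Ioc N N', ‖W k A (al k t β m)‖
        ≤ (1 / (A : ℝ) ^ 2) * (((Ioc N N').card : ℝ) * ((A : ℝ) ^ 2 * B)) := by gcongr
      _ = ((Ioc N N').card : ℝ) * B := by
          have hA2 : (A : ℝ) ^ 2 ≠ 0 := by positivity
          generalize ((Ioc N N').card : ℝ) = w
          generalize B = b
          field_simp
      _ ≤ N * B := by gcongr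
  -- bound for B
  have hBle : B ≤ Real.exp (125 * C * u ^ 3 - c / 25 * u ^ 7) * (1 + 2 * u ^ 10) := by
    rw [hB, hNrpow]
    have e1 : C * (k : ℝ) ^ 3 ≤ 125 * C * u ^ 3 := by
      have : (k : ℝ) ^ 3 ≤ (5 * u) ^ 3 := by gcongr
      calc C * (k : ℝ) ^ 3 ≤ C * (5 * u) ^ 3 := by gcongr
        _ = 125 * C * u ^ 3 := by ring
    have e2 : c / 25 * u ^ 7 ≤ c / (k : ℝ) ^ 2 * ℓ := by
      have h1 : (k : ℝ) ^ 2 ≤ (5 * u) ^ 2 := by gcongr
      have h2 : c / (5 * u) ^ 2 ≤ c / (k : ℝ) ^ 2 := by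
        gcongr
      calc c / 25 * u ^ 7 = c / (5 * u) ^ 2 * u ^ 9 := by
            field_simp
            ring
        _ ≤ c / (k : ℝ) ^ 2 * ℓ := by gcongr
    have e3 : 1 + Real.log N ≤ 1 + 2 * u ^ 10 := by
      rw [hu10, ← hℓ]; linarith
    have e30 : 0 ≤ 1 + Real.log N := by rw [← hℓ]; linarith
    calc Real.exp (C * (k : ℝ) ^ 3) * (1 + Real.log N) * Real.exp (-(c / (k : ℝ) ^ 2) * ℓ)
        = Real.exp (C * (k : ℝ) ^ 3 - c / (k : ℝ) ^ 2 * ℓ) * (1 + Real.log N) := by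
          rw [sub_eq_add_neg, Real.exp_add, neg_mul]; ring
      _ ≤ Real.exp (125 * C * u ^ 3 - c / 25 * u ^ 7) * (1 + 2 * u ^ 10) := by
          apply mul_le_mul _ e3 e30 (Real.exp_pos _).le
          apply Real.exp_le_exp.2
          linarith
  -- third term
  have hthird : N * t * ((A : ℝ) ^ 2 / N) ^ (k + 1) ≤ N * Real.exp (-ℓ / 3) := by
    have h1 : (A : ℝ) ^ 2 / N ≤ Real.exp (-ℓ / 3) := by
      rw [div_le_iff₀ hNpos]
      linarith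
    have h2 : ((A : ℝ) ^ 2 / N) ^ (k + 1) ≤ (Real.exp (-ℓ / 3)) ^ (k + 1) := by
      gcongr
    have h3 : t * (Real.exp (-ℓ / 3)) ^ (k + 1) ≤ Real.exp (-ℓ / 3) := by
      rw [← Real.exp_nat_mul, htL, ← Real.exp_add]
      apply Real.exp_le_exp.2
      rw [← hκℓ]
      push_cast
      have : κ * ℓ ≤ (k : ℝ) / 3 * ℓ := by
        apply mul_le_mul_of_nonneg_right _ hℓpos.le
        linarith
      linarith
    calc N * t * ((A : ℝ) ^ 2 / N) ^ (k + 1) ≤ N * t * (Real.exp (-ℓ / 3)) ^ (k + 1) := by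
          gcongr
      _ = N * (t * (Real.exp (-ℓ / 3)) ^ (k + 1)) := by ring
      _ ≤ N * Real.exp (-ℓ / 3) := by gcongr
  have hexpℓ : Real.exp (-ℓ / 3) ≤ Real.exp (-(u ^ 9) / 3) := by
    apply Real.exp_le_exp.2
    linarith
  calc (1 / (A : ℝ) ^ 2) * ∑ m ∈ Ioc N N', ‖W k A (al k t β m)‖ + 2 * (A : ℝ) ^ 2 +
        N * t * ((A : ℝ) ^ 2 / N) ^ (k + 1)
      ≤ N * B + 2 * (N * Real.exp (-ℓ / 3)) + N * Real.exp (-ℓ / 3) := by
        gcongr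
    _ = N * (B + 3 * Real.exp (-ℓ / 3)) := by ring
    _ ≤ N * (Real.exp (125 * C * u ^ 3 - c / 25 * u ^ 7) * (1 + 2 * u ^ 10) +
        3 * Real.exp (-(u ^ 9) / 3)) := by
        gcongr
    _ ≤ N * Real.exp (-Real.sqrt L) := by
        rw [← hu5]
        gcongr

end Pool.Agent.H43.ZS
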