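import Pool.Agent.H43.ZS.Defs

/-!
# [H43 ZS DBL] The double sum and the mean value

`‖W k A α‖^(4 s^2) <= A^(8s^2-4s) J(k,s,A)^2 ∏_j U (α_j) (s A^j)` for `k, s, A >= 1`
(`j = 1..k`, i.e. `s * A^(j+1)` for the index `j : Fin k`).

PROOF. Write `B = {μ ∈ ℤ^k : |μ_j| <= s A^j}`. For `y ∈ VM.box s A` the vector `VM.ps k y` has
coordinates in `[0, s A^j]` (here `1 <= y_i <= A`), so differences of two such vectors lie in `B`. For
`μ ∈ ℤ^k` let `r(μ) = #{(y,y') ∈ box^2 : ps y - ps y' = μ}`. Then `Σ_μ r(μ) = A^(2s)`, `r(μ) = 0`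
outside `B`, and `r(μ) <= J k s A` (with `n_v = #{y : ps y = v}`: `Σ_v n_(v+μ) n_v <= Σ_v n_v^2 = J`).
Let `V(μ) = Σ_{x=1}^{A} ez(Σ_j α_j x^j μ_j)`.
(1) `‖W‖^(2s) <= (Σ_x ‖Σ_y ez(..)‖)^(2s) <= A^(2s-1) Σ_x ‖Σ_y ez(..)‖^(2s)`
(`Real.pow_sum_le..`, power mean), and `‖Σ_y ez(Σ_j α_j x^j y^j)‖^(2s) = Σ_{y,y' ∈ box} ez(Σ_j α_j x^j (ps y - ps y')_j)`
(expand `(Σ_y c_y)^s conj(Σ_y c_y)^s`, `Finset.prod_univ_sum`/`Fintype.piFinset`; `ez` is additive,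
`conj (ez u) = ez (-u)`). Interchange the sums: the right side sums to
`Σ_{y,y'} V(ps y - ps y')`, so `‖W‖^(2s) <= A^(2s-1) Σ_{y,y'} ‖V(ps y - ps y')‖`.
(2) Raise to the power `2s` (power mean with `A^(2s)` terms):
`‖W‖^(4s^2) <= A^(2s(2s-1)) A^(2s(2s-1)) Σ_{y,y'} ‖V(ps y - ps y')‖^(2s)
 = A^(8s^2-4s) Σ_μ r(μ) ‖V(μ)‖^(2s) <= A^(8s^2-4s) J Σ_{μ∈B} ‖V(μ)‖^(2s)`.
(3) `Σ_{μ∈B} ‖V(μ)‖^(2s) = Σ_{x,x' ∈ box} Σ_{μ∈B} ez(Σ_j α_j μ_j ν_j)`, `ν = ps x - ps x'`, and the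
inner sum is `∏_j Σ_{|μ_j| <= sA^j} ez(α_j μ_j ν_j)` (`Finset.prod_univ_sum`); take absolute values and
group by `ν`: `<= Σ_ν r(ν) ∏_j ‖Σ_{μ_j} ez(α_j μ_j ν_j)‖ <= J Σ_{ν∈B} ∏_j ‖..‖ = J ∏_j U (α_j) (s A^j)`
(again `Finset.prod_univ_sum`).
-/

namespace Pool.Agent.H43.ZS

open Finset

theorem dbl_ez_add (a b : ℝ) : ez (a + b) = ez a * ez b := by
  unfold ez
  rw [← Complex.exp_add]
  congr 1
  push_cast
  ring

theorem dbl_ez_zero : ez 0 = 1 := by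
  unfold ez
  simp

theorem dbl_ez_conj (a : ℝ) : (starRingEnd ℂ) (ez a) = ez (-a) := by
  unfold ez
  rw [← Complex.exp_conj]
  congr 1
  have h2 : (starRingEnd ℂ) 2 = 2 := Complex.conj_ofNat 2
  simp [h2]

theorem dbl_ez_sum {ι : Type*} (s : Finset ι) (f : ι → ℝ) :
    ez (∑ i ∈ s, f i) = ∏ i ∈ s, ez (f i) := by
  classical
  induction s using Finset.induction_on with
  | empty => simp [dbl_ez_zero]
  | insert a s ha ih => rw [Finset.sum_insert ha, Finset.prod_insert ha, dbl_ez_add, ih]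

theorem dbl_pow (s A : ℕ) (c : ℤ → ℝ) :
    (∑ y ∈ Icc (1 : ℤ) (A : ℤ), ez (c y)) ^ s = ∑ y ∈ VM.box s A, ez (∑ i, c (y i)) := by
  have h1 : (∑ y ∈ Icc (1 : ℤ) (A : ℤ), ez (c y)) ^ s =
      ∏ _i : Fin s, ∑ y ∈ Icc (1 : ℤ) (A : ℤ), ez (c y) := by
    rw [Finset.prod_const, Finset.card_univ, Fintype.card_fin]
  rw [h1, Finset.prod_univ_sum]
  unfold VM.box
  refine Finset.sum_congr rfl fun y _ => ?_
  rw [dbl_ez_sum]

theorem dbl_norm (s A : ℕ) (c : ℤ → ℝ) :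
    ((‖∑ y ∈ Icc (1 : ℤ) (A : ℤ), ez (c y)‖ ^ (2 * s) : ℝ) : ℂ) =
      ∑ q ∈ VM.box s A ×ˢ VM.box s A, ez (∑ i, c (q.1 i) - ∑ i, c (q.2 i)) := by
  have h1 : ((‖∑ y ∈ Icc (1 : ℤ) (A : ℤ), ez (c y)‖ ^ (2 * s) : ℝ) : ℂ) =
      (∑ y ∈ Icc (1 : ℤ) (A : ℤ), ez (c y)) ^ s *
        (starRingEnd ℂ) ((∑ y ∈ Icc (1 : ℤ) (A : ℤ), ez (c y)) ^ s) := by
    rw [map_pow, ← mul_pow, Complex.mul_conj', pow_mul]
    push_cast
    rfl
  rw [h1, dbl_pow, map_sum, Finset.sum_mul_sum, ← Finset.sum_product']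
  refine Finset.sum_congr rfl fun q _ => ?_
  rw [dbl_ez_conj, ← dbl_ez_add, sub_eq_add_neg]

/-- the number of tuples with given power sums -/
noncomputable def dbl_n (k s A : ℕ) (v : Fin k → ℤ) : ℕ :=
  ((VM.box s A).filter fun y => VM.ps k y = v).card

theorem dbl_J (k s A : ℕ) :
    VM.J k s A = ∑ v ∈ (VM.box s A).image (VM.ps k), dbl_n k s A v ^ 2 := by
  unfold VM.J
  rw [Finset.card_eq_sum_card_fiberwise (f := fun q : (Fin s → ℤ) × (Fin s → ℤ) => VM.ps k q.1)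
    (t := (VM.box s A).image (VM.ps k))]
  · refine Finset.sum_congr rfl fun v _ => ?_
    rw [pow_two, dbl_n, ← Finset.card_product]
    congr 1
    ext q
    simp only [Finset.mem_filter, Finset.mem_product]
    constructor
    · rintro ⟨⟨⟨h1, h2⟩, h3⟩, h4⟩
      exact ⟨⟨h1, h4⟩, h2, h3 ▸ h4⟩
    · rintro ⟨⟨h1, h2⟩, h3, h4⟩
      exact ⟨⟨⟨h1, h3⟩, h2.trans h4.symm⟩, h2⟩
  · intro q hq
    have h1 := (Finset.mem_product.1 (Finset.mem_filter.1 (Finset.mem_coe.1 hq)).1).1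
    exact Finset.mem_coe.2 (Finset.mem_image_of_mem _ h1)

theorem dbl_fiber (k s A : ℕ) (μ : Fin k → ℤ) :
    ((VM.box s A ×ˢ VM.box s A).filter fun q => VM.ps k q.1 - VM.ps k q.2 = μ).card =
      ∑ v ∈ (VM.box s A).image (VM.ps k), dbl_n k s A (v + μ) * dbl_n k s A v := by
  rw [Finset.card_eq_sum_card_fiberwise (f := fun q : (Fin s → ℤ) × (Fin s → ℤ) => VM.ps k q.2)
    (t := (VM.box s A).image (VM.ps k))]
  · refine Finset.sum_congr rfl fun v _ => ?_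
    rw [dbl_n, dbl_n, ← Finset.card_product]
    congr 1
    ext q
    simp only [Finset.mem_filter, Finset.mem_product]
    constructor
    · rintro ⟨⟨⟨h1, h2⟩, h3⟩, h4⟩
      refine ⟨⟨h1, ?_⟩, h2, h4⟩
      rw [← h3, ← h4]
      abel
    · rintro ⟨⟨h1, h2⟩, h3, h4⟩
      refine ⟨⟨⟨h1, h3⟩, ?_⟩, h4⟩
      rw [h2, h4]
      abel
  · intro q hq
    have h1 := (Finset.mem_product.1 (Finset.mem_filter.1 (Finset.mem_coe.1 hq)).1).2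
    exact Finset.mem_coe.2 (Finset.mem_image_of_mem _ h1)

theorem dbl_fiber_le (k s A : ℕ) (μ : Fin k → ℤ) :
    ((VM.box s A ×ˢ VM.box s A).filter fun q => VM.ps k q.1 - VM.ps k q.2 = μ).card ≤
      VM.J k s A := by
  rw [dbl_fiber]
  set T := (VM.box s A).image (VM.ps k) with hT
  have hn0 : ∀ v, v ∉ T → dbl_n k s A v = 0 := by
    intro v hv
    rw [dbl_n, Finset.card_eq_zero, Finset.filter_eq_empty_iff]
    intro y hy hyv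
    exact hv (hyv ▸ Finset.mem_image_of_mem _ hy)
  have h1 : ∑ v ∈ T, dbl_n k s A (v + μ) ^ 2 ≤ ∑ v ∈ T, dbl_n k s A v ^ 2 := by
    have h2 : ∑ v ∈ T, dbl_n k s A (v + μ) ^ 2 =
        ∑ w ∈ T.image (fun v => v + μ), dbl_n k s A w ^ 2 := by
      refine (Finset.sum_image (s := T) (g := fun v => v + μ)
        (f := fun w => dbl_n k s A w ^ 2) ?_).symm
      intro a _ b _ hab
      exact add_right_cancel hab
    rw [h2]
    calc ∑ w ∈ T.image (fun v => v + μ), dbl_n k s A w ^ 2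
        = ∑ w ∈ (T.image (fun v => v + μ)).filter (fun w => w ∈ T), dbl_n k s A w ^ 2 := by
          rw [Finset.sum_filter]
          refine Finset.sum_congr rfl fun w _ => ?_
          split_ifs with h
          · rfl
          · rw [hn0 w h]
            rfl
      _ ≤ ∑ w ∈ T, dbl_n k s A w ^ 2 := by
          apply Finset.sum_le_sum_of_subset
          intro w hw
          exact (Finset.mem_filter.1 hw).2
  have h3 : 2 * ∑ v ∈ T, dbl_n k s A (v + μ) * dbl_n k s A v ≤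
      ∑ v ∈ T, dbl_n k s A (v + μ) ^ 2 + ∑ v ∈ T, dbl_n k s A v ^ 2 := by
    rw [Finset.mul_sum, ← Finset.sum_add_distrib]
    refine Finset.sum_le_sum fun v _ => ?_
    have := two_mul_le_add_sq (dbl_n k s A (v + μ)) (dbl_n k s A v)
    nlinarith
  rw [dbl_J, ← hT]
  omega

/-- the box of the differences of power sums -/
noncomputable def dbl_B (k s A : ℕ) : Finset (Fin k → ℤ) :=
  Fintype.piFinset fun j : Fin k =>
    Icc (-((s * A ^ ((j : ℕ) + 1) : ℕ) : ℤ)) ((s * A ^ ((j : ℕ) + 1) : ℕ) : ℤ)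

theorem dbl_mem_B (k s A : ℕ) {q : (Fin s → ℤ) × (Fin s → ℤ)}
    (hq : q ∈ VM.box s A ×ˢ VM.box s A) : VM.ps k q.1 - VM.ps k q.2 ∈ dbl_B k s A := by
  have key : ∀ y ∈ VM.box s A, ∀ j : Fin k, 0 ≤ VM.ps k y j ∧
      VM.ps k y j ≤ ((s * A ^ ((j : ℕ) + 1) : ℕ) : ℤ) := by
    intro y hy j
    have h1 : ∀ i, 1 ≤ y i ∧ y i ≤ (A : ℤ) := by
      intro i
      exact Finset.mem_Icc.1 (Fintype.mem_piFinset.1 hy i)
    unfold VM.ps
    constructor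
    · exact Finset.sum_nonneg fun i _ => pow_nonneg (by linarith [(h1 i).1]) _
    · calc ∑ i, y i ^ ((j : ℕ) + 1) ≤ ∑ _i : Fin s, (A : ℤ) ^ ((j : ℕ) + 1) :=
          Finset.sum_le_sum fun i _ => pow_le_pow_left₀ (by linarith [(h1 i).1]) (h1 i).2 _
        _ = ((s * A ^ ((j : ℕ) + 1) : ℕ) : ℤ) := by
          rw [Finset.sum_const, Finset.card_univ, Fintype.card_fin, nsmul_eq_mul]
          push_cast
          rfl
  rw [Finset.mem_product] at hq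
  unfold dbl_B
  rw [Fintype.mem_piFinset]
  intro j
  obtain ⟨a1, a2⟩ := key q.1 hq.1 j
  obtain ⟨b1, b2⟩ := key q.2 hq.2 j
  rw [Finset.mem_Icc, Pi.sub_apply]
  constructor <;> linarith

theorem dbl_group (k s A : ℕ) (g : (Fin k → ℤ) → ℝ) (hg : ∀ μ, 0 ≤ g μ) :
    ∑ q ∈ VM.box s A ×ˢ VM.box s A, g (VM.ps k q.1 - VM.ps k q.2) ≤
      (VM.J k s A : ℝ) * ∑ μ ∈ dbl_B k s A, g μ := by
  rw [← Finset.sum_fiberwise_of_maps_to (g := fun q : (Fin s → ℤ) × (Fin s → ℤ) =>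
    VM.ps k q.1 - VM.ps k q.2) (fun q hq => dbl_mem_B k s A hq), Finset.mul_sum]
  refine Finset.sum_le_sum fun μ _ => ?_
  have h1 : ∑ q ∈ (VM.box s A ×ˢ VM.box s A).filter
      (fun q => VM.ps k q.1 - VM.ps k q.2 = μ), g (VM.ps k q.1 - VM.ps k q.2) =
      (((VM.box s A ×ˢ VM.box s A).filter
      (fun q => VM.ps k q.1 - VM.ps k q.2 = μ)).card : ℝ) * g μ := by
    rw [← nsmul_eq_mul, ← Finset.sum_const]
    refine Finset.sum_congr rfl fun q hq => ?_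
    rw [(Finset.mem_filter.1 hq).2]
  rw [h1]
  refine mul_le_mul_of_nonneg_right ?_ (hg μ)
  exact_mod_cast dbl_fiber_le k s A μ

/-- the sum over `x` for a given vector -/
noncomputable def dbl_V (k A : ℕ) (α : Fin k → ℝ) (μ : Fin k → ℤ) : ℂ :=
  ∑ x ∈ Icc (1 : ℤ) (A : ℤ), ez (∑ j : Fin k, α j * ((x : ℝ) ^ ((j : ℕ) + 1) * (μ j : ℝ)))

theorem dbl_phase (k s : ℕ) (α : Fin k → ℝ) (x : ℝ) (y : Fin s → ℤ) :
    ∑ i, ∑ j : Fin k, α j * (x ^ ((j : ℕ) + 1) * ((y i : ℤ) : ℝ) ^ ((j : ℕ) + 1)) =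
      ∑ j : Fin k, α j * (x ^ ((j : ℕ) + 1) * ((VM.ps k y j : ℤ) : ℝ)) := by
  rw [Finset.sum_comm]
  refine Finset.sum_congr rfl fun j _ => ?_
  unfold VM.ps
  push_cast
  rw [Finset.mul_sum, Finset.mul_sum]

theorem dbl_phase2 (k s : ℕ) (α : Fin k → ℝ) (μ : Fin k → ℤ) (x : Fin s → ℤ) :
    ∑ i, ∑ j : Fin k, α j * (((x i : ℤ) : ℝ) ^ ((j : ℕ) + 1) * (μ j : ℝ)) =
      ∑ j : Fin k, α j * (μ j : ℝ) * ((VM.ps k x j : ℤ) : ℝ) := by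
  rw [Finset.sum_comm]
  refine Finset.sum_congr rfl fun j _ => ?_
  unfold VM.ps
  push_cast
  rw [Finset.mul_sum]
  refine Finset.sum_congr rfl fun i _ => ?_
  ring

theorem dbl_cast (A : ℕ) (f : ℝ → ℂ) :
    ∑ x ∈ Icc 1 A, f (x : ℝ) = ∑ x ∈ Icc (1 : ℤ) (A : ℤ), f ((x : ℤ) : ℝ) := by
  refine Finset.sum_bij (fun x _ => (x : ℤ)) ?_ ?_ ?_ ?_
  · intro x hx
    rw [Finset.mem_Icc] at hx ⊢
    exact ⟨by exact_mod_cast hx.1, by exact_mod_cast hx.2⟩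
  · intro a _ b _ h
    exact_mod_cast h
  · intro b hb
    rw [Finset.mem_Icc] at hb
    refine ⟨b.toNat, ?_, ?_⟩
    · rw [Finset.mem_Icc]
      omega
    · omega
  · intro x _
    simp

theorem dbl_W (k A : ℕ) (α : Fin k → ℝ) :
    W k A α = ∑ x ∈ Icc (1 : ℤ) (A : ℤ), ∑ y ∈ Icc (1 : ℤ) (A : ℤ),
      ez (∑ j : Fin k, α j * (((x : ℤ) : ℝ) ^ ((j : ℕ) + 1) * ((y : ℤ) : ℝ) ^ ((j : ℕ) + 1))) := by
  unfold W
  rw [dbl_cast A (fun x => ∑ y ∈ Icc 1 A,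
    ez (∑ j : Fin k, α j * (x ^ ((j : ℕ) + 1) * (y : ℝ) ^ ((j : ℕ) + 1))))]
  refine Finset.sum_congr rfl fun x _ => ?_
  exact dbl_cast A (fun y => ez (∑ j : Fin k, α j * (((x : ℤ) : ℝ) ^ ((j : ℕ) + 1) *
    y ^ ((j : ℕ) + 1))))

theorem dbl_pm {ι : Type*} (s : Finset ι) (f : ι → ℝ) (hf : ∀ i ∈ s, 0 ≤ f i) (n : ℕ) :
    (∑ i ∈ s, f i) ^ (n + 1) ≤ (s.card : ℝ) ^ n * ∑ i ∈ s, f i ^ (n + 1) := by
  rcases s.eq_empty_or_nonempty with rfl | hne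
  · simp
  have h1 := pow_sum_div_card_le_sum_pow hf n
  have h2 : (0 : ℝ) < (s.card : ℝ) ^ n := by
    have := hne.card_pos
    positivity
  rw [div_le_iff₀ h2] at h1
  rwa [mul_comm]

theorem dbl_one (k s A : ℕ) (hs : 1 ≤ s) (α : Fin k → ℝ) :
    ‖W k A α‖ ^ (2 * s) ≤ (A : ℝ) ^ (2 * s - 1) *
      ∑ q ∈ VM.box s A ×ˢ VM.box s A, ‖dbl_V k A α (VM.ps k q.1 - VM.ps k q.2)‖ := by
  obtain ⟨n, hn⟩ : ∃ n, 2 * s = n + 1 := ⟨2 * s - 1, by omega⟩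
  set inn : ℤ → ℂ := fun x => ∑ y ∈ Icc (1 : ℤ) (A : ℤ),
      ez (∑ j : Fin k, α j * (((x : ℤ) : ℝ) ^ ((j : ℕ) + 1) * ((y : ℤ) : ℝ) ^ ((j : ℕ) + 1)))
    with hinn
  have h1 : ‖W k A α‖ ≤ ∑ x ∈ Icc (1 : ℤ) (A : ℤ), ‖inn x‖ := by
    rw [dbl_W]
    exact norm_sum_le _ _
  have h2 : ‖W k A α‖ ^ (2 * s) ≤ (A : ℝ) ^ (2 * s - 1) *
      ∑ x ∈ Icc (1 : ℤ) (A : ℤ), ‖inn x‖ ^ (2 * s) := by
    have h3 := dbl_pm (Icc (1 : ℤ) (A : ℤ)) (fun x => ‖inn x‖) (fun _ _ => norm_nonneg _) n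
    rw [Int.card_Icc] at h3
    have h4 : ((A : ℤ) + 1 - 1).toNat = A := by omega
    rw [h4] at h3
    have h5 : 2 * s - 1 = n := by omega
    rw [h5, hn]
    exact (pow_le_pow_left₀ (norm_nonneg _) h1 _).trans h3
  refine h2.trans (mul_le_mul_of_nonneg_left ?_ (by positivity))
  have h3 : ((∑ x ∈ Icc (1 : ℤ) (A : ℤ), ‖inn x‖ ^ (2 * s) : ℝ) : ℂ) =
      ∑ q ∈ VM.box s A ×ˢ VM.box s A, dbl_V k A α (VM.ps k q.1 - VM.ps k q.2) := by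
    rw [Complex.ofReal_sum]
    have h4 : ∀ x ∈ Icc (1 : ℤ) (A : ℤ), ((‖inn x‖ ^ (2 * s) : ℝ) : ℂ) =
        ∑ q ∈ VM.box s A ×ˢ VM.box s A, ez (∑ j : Fin k, α j * (((x : ℤ) : ℝ) ^ ((j : ℕ) + 1) *
          (((VM.ps k q.1 - VM.ps k q.2) j : ℤ) : ℝ))) := by
      intro x _
      rw [hinn]
      simp only
      rw [dbl_norm]
      refine Finset.sum_congr rfl fun q _ => ?_
      rw [dbl_phase, dbl_phase, ← Finset.sum_sub_distrib]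
      congr 1
      refine Finset.sum_congr rfl fun j _ => ?_
      rw [Pi.sub_apply]
      push_cast
      ring
    rw [Finset.sum_congr rfl h4, Finset.sum_comm]
    rfl
  have h5 : ∑ x ∈ Icc (1 : ℤ) (A : ℤ), ‖inn x‖ ^ (2 * s) =
      ‖((∑ x ∈ Icc (1 : ℤ) (A : ℤ), ‖inn x‖ ^ (2 * s) : ℝ) : ℂ)‖ := by
    rw [Complex.norm_real, Real.norm_of_nonneg]
    exact Finset.sum_nonneg fun _ _ => by positivity
  rw [h5, h3]
  exact norm_sum_le _ _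

theorem dbl_three (k s A : ℕ) (α : Fin k → ℝ) :
    ∑ μ ∈ dbl_B k s A, ‖dbl_V k A α μ‖ ^ (2 * s) ≤
      (VM.J k s A : ℝ) * ∏ j : Fin k, U (α j) (s * A ^ ((j : ℕ) + 1)) := by
  set h : (Fin k → ℤ) → ℝ := fun ν => ∏ j : Fin k,
    ‖∑ m ∈ Icc (-((s * A ^ ((j : ℕ) + 1) : ℕ) : ℤ)) ((s * A ^ ((j : ℕ) + 1) : ℕ) : ℤ),
      ez (α j * m * (ν j : ℝ))‖ with hh
  have h1 : ((∑ μ ∈ dbl_B k s A, ‖dbl_V k A α μ‖ ^ (2 * s) : ℝ) : ℂ) =
      ∑ q ∈ VM.box s A ×ˢ VM.box s A, ∏ j : Fin k,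
        ∑ m ∈ Icc (-((s * A ^ ((j : ℕ) + 1) : ℕ) : ℤ)) ((s * A ^ ((j : ℕ) + 1) : ℕ) : ℤ),
          ez (α j * m * (((VM.ps k q.1 - VM.ps k q.2) j : ℤ) : ℝ)) := by
    rw [Complex.ofReal_sum]
    have h4 : ∀ μ ∈ dbl_B k s A, ((‖dbl_V k A α μ‖ ^ (2 * s) : ℝ) : ℂ) =
        ∑ q ∈ VM.box s A ×ˢ VM.box s A, ∏ j : Fin k,
          ez (α j * (μ j : ℝ) * (((VM.ps k q.1 - VM.ps k q.2) j : ℤ) : ℝ)) := by
      intro μ _
      unfold dbl_V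
      rw [dbl_norm s A (fun x => ∑ j : Fin k, α j * ((x : ℝ) ^ ((j : ℕ) + 1) * (μ j : ℝ)))]
      refine Finset.sum_congr rfl fun q _ => ?_
      rw [dbl_phase2, dbl_phase2, ← Finset.sum_sub_distrib, dbl_ez_sum]
      refine Finset.prod_congr rfl fun j _ => ?_
      rw [Pi.sub_apply]
      congr 1
      push_cast
      ring
    rw [Finset.sum_congr rfl h4, Finset.sum_comm]
    refine Finset.sum_congr rfl fun q _ => ?_
    rw [Finset.prod_univ_sum]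
    rfl
  have h2 : ∑ μ ∈ dbl_B k s A, ‖dbl_V k A α μ‖ ^ (2 * s) ≤
      ∑ q ∈ VM.box s A ×ˢ VM.box s A, h (VM.ps k q.1 - VM.ps k q.2) := by
    have h5 : ∑ μ ∈ dbl_B k s A, ‖dbl_V k A α μ‖ ^ (2 * s) =
        ‖((∑ μ ∈ dbl_B k s A, ‖dbl_V k A α μ‖ ^ (2 * s) : ℝ) : ℂ)‖ := by
      rw [Complex.norm_real, Real.norm_of_nonneg]
      exact Finset.sum_nonneg fun _ _ => by positivity
    rw [h5, h1]
    refine (norm_sum_le _ _).trans (Finset.sum_le_sum fun q _ => ?_)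
    rw [norm_prod]
  refine h2.trans ((dbl_group k s A h fun ν => Finset.prod_nonneg fun _ _ => norm_nonneg _).trans
    (le_of_eq ?_))
  congr 1
  unfold U
  rw [Finset.prod_univ_sum]
  rfl

theorem dbl (k s A : ℕ) (hk : 1 ≤ k) (hs : 1 ≤ s) (hA : 1 ≤ A) (α : Fin k → ℝ) :
    ‖W k A α‖ ^ (4 * s ^ 2) ≤ (A : ℝ) ^ (8 * s ^ 2 - 4 * s) * (VM.J k s A : ℝ) ^ 2 *
      ∏ j : Fin k, U (α j) (s * A ^ ((j : ℕ) + 1)) := by
  obtain ⟨n, hn⟩ : ∃ n, 2 * s = n + 1 := ⟨2 * s - 1, by omega⟩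
  have h1 := dbl_one k s A hs α
  have hc : ((VM.box s A ×ˢ VM.box s A).card : ℝ) = (A : ℝ) ^ (2 * s) := by
    rw [Finset.card_product]
    have : (VM.box s A).card = A ^ s := by
      unfold VM.box
      rw [Fintype.card_piFinset]
      simp
    rw [this]
    push_cast
    ring
  have h2 := dbl_pm (VM.box s A ×ˢ VM.box s A)
    (fun q => ‖dbl_V k A α (VM.ps k q.1 - VM.ps k q.2)‖) (fun _ _ => norm_nonneg _) n
  rw [hc, ← hn] at h2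
  have h3 := dbl_group k s A (fun μ => ‖dbl_V k A α μ‖ ^ (2 * s)) (fun _ => by positivity)
  have h4 := dbl_three k s A α
  have hn' : 2 * s - 1 = n := by omega
  calc ‖W k A α‖ ^ (4 * s ^ 2) = (‖W k A α‖ ^ (2 * s)) ^ (2 * s) := by
        rw [← pow_mul]
        congr 1
        ring
    _ ≤ ((A : ℝ) ^ (2 * s - 1) *
        ∑ q ∈ VM.box s A ×ˢ VM.box s A, ‖dbl_V k A α (VM.ps k q.1 - VM.ps k q.2)‖) ^ (2 * s) :=
        pow_le_pow_left₀ (by positivity) h1 _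
    _ = ((A : ℝ) ^ (2 * s - 1)) ^ (2 * s) *
        (∑ q ∈ VM.box s A ×ˢ VM.box s A,
          ‖dbl_V k A α (VM.ps k q.1 - VM.ps k q.2)‖) ^ (2 * s) := mul_pow _ _ _
    _ ≤ ((A : ℝ) ^ (2 * s - 1)) ^ (2 * s) * (((A : ℝ) ^ (2 * s)) ^ n *
        ((VM.J k s A : ℝ) * ((VM.J k s A : ℝ) *
          ∏ j : Fin k, U (α j) (s * A ^ ((j : ℕ) + 1))))) := by
        refine mul_le_mul_of_nonneg_left (h2.trans ?_) (by positivity)
        refine mul_le_mul_of_nonneg_left (h3.trans ?_) (by positivity)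
        exact mul_le_mul_of_nonneg_left h4 (by positivity)
    _ = _ := by
        have e1 : ((A : ℝ) ^ (2 * s - 1)) ^ (2 * s) * ((A : ℝ) ^ (2 * s)) ^ n =
            (A : ℝ) ^ (8 * s ^ 2 - 4 * s) := by
          rw [← pow_mul, ← pow_mul, ← pow_add]
          congr 1
          rw [hn']
          have e2 : n * (2 * s) + 2 * s * n + 4 * s = 8 * s ^ 2 := by
            have : n * (2 * s) + 2 * s * n + 4 * s = 2 * (2 * s) * (n + 1) := by ring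
            rw [this, ← hn]
            ring
          omega
        rw [← e1]
        ring

end Pool.Agent.H43.ZS
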