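import Pool.Agent.H43.VM.Closed

/-!
# Sums of `(m+β)^(-it)` by Vinogradov's method (H43/ZS): definitions and plan

Final theorem (`Fin.lean`): for `t` large, `exp((log t)^0.9) <= N <= t^2`, `N' <= 2N`, `0 <= β <= 1`:
`‖Σ_{N<m<=N'} (m+β)^(-it)‖ <= N exp(-sqrt(log t))`.

* `Shift`: `m -> m + x y` with `1 <= x, y <= A`, `A` about `N^(1/3)`, Taylor expansion of the logarithm.
* `Dbl`: the double sum `W` by Hoelder's inequality (twice) and `J k s A`.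
* `UB`: the one-dimensional sums `U`.
* `WB`: the bound for `W` from `Dbl`, `UB` and the mean value theorem `VM.vmvt`.
* `Fin`: assembly.
-/

namespace Pool.Agent.H43.ZS

open Finset

/-- `e(u) = exp(2 π i u)` -/
noncomputable def ez (u : ℝ) : ℂ := Complex.exp (2 * Real.pi * u * Complex.I)

/-- the double sum over `1 <= x, y <= A` of `e(Σ_j α_j x^j y^j)` (`j = 1..k`) -/
noncomputable def W (k A : ℕ) (α : Fin k → ℝ) : ℂ :=
  ∑ x ∈ Icc 1 A, ∑ y ∈ Icc 1 A,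
    ez (∑ j : Fin k, α j * ((x : ℝ) ^ ((j : ℕ) + 1) * (y : ℝ) ^ ((j : ℕ) + 1)))

/-- `Σ_{|ν| <= V} |Σ_{|μ| <= V} e(θ μ ν)|` -/
noncomputable def U (θ : ℝ) (V : ℕ) : ℝ :=
  ∑ ν ∈ Icc (-(V : ℤ)) (V : ℤ), ‖∑ μ ∈ Icc (-(V : ℤ)) (V : ℤ), ez (θ * μ * ν)‖

/-- the Taylor coefficients: `-t log(1+z)/(2π) = Σ_j α_j (xy)^j + ...` with `z = xy/(m+β)` -/
noncomputable def al (k : ℕ) (t β : ℝ) (m : ℕ) : Fin k → ℝ :=
  fun j => (-1) ^ ((j : ℕ) + 1) * t /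
    (2 * Real.pi * (((j : ℕ) : ℝ) + 1) * ((m : ℝ) + β) ^ ((j : ℕ) + 1))

end Pool.Agent.H43.ZS
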